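import Pool.Agent.W5h33.DF.Cyclo

/-!
# The cyclotomic `ℤ_p`-extension has layers of every degree `p ^ m` (helper21 for helper33)
-/

set_option autoImplicit false

namespace Pool.Agent.W5h33.DF

open IntermediateField Module Pool.Agent.Q60.MU Pool.Agent.W5h77.MB
open scoped Pointwise

theorem exi_cyclotomic {p : ℕ} (hp : p.Prime) (N : ℕ) :
    IsCyclotomicExtension {p ^ N} ℚ (adjoin ℚ {z : Qb | z ^ p ^ N = 1}) := by
  have hne : NeZero (p ^ N) := ⟨(pow_pos hp.pos N).ne'⟩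
  have hpQ : NeZero ((p ^ N : ℕ) : Qb) := ⟨by exact_mod_cast (pow_pos hp.pos N).ne'⟩
  obtain ⟨ξ, hξ⟩ := HasEnoughRootsOfUnity.exists_primitiveRoot Qb (p ^ N)
  refine (IntermediateField.isCyclotomicExtension_singleton_iff_eq_adjoin (K := ℚ) (L := Qb)
    (n := p ^ N) (hζ := hξ) _).2 ?_
  apply le_antisymm
  · rw [adjoin_le_iff]
    intro x hx
    obtain ⟨k, _, rfl⟩ := hξ.eq_pow_of_pow_eq_one hx
    exact pow_mem (mem_adjoin_simple_self ℚ ξ) k
  · rw [adjoin_simple_le_iff]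
    exact subset_adjoin ℚ _ hξ.pow_eq_one

theorem exi_comm {p : ℕ} (hp : p.Prime) (N : ℕ) (σ τ : Gal(Qb/ℚ)) :
    (τ * σ)⁻¹ * (σ * τ) ∈ (adjoin ℚ {z : Qb | z ^ p ^ N = 1}).fixingSubgroup := by
  have hfix : ∀ z : Qb, z ^ p ^ N = 1 → ((τ * σ)⁻¹ * (σ * τ)) z = z := by
    intro z hz
    have hz0 : 0 < orderOf z :=
      orderOf_pos_iff.2 (isOfFinOrder_iff_pow_eq_one.2 ⟨p ^ N, pow_pos hp.pos N, hz⟩)
    have hprim := IsPrimitiveRoot.orderOf z
    have : NeZero (orderOf z) := ⟨hz0.ne'⟩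
    have h2 : ∀ σ : Gal(Qb/ℚ), ∃ i, σ z = z ^ i := by
      intro σ
      obtain ⟨i, -, hi⟩ := hprim.eq_pow_of_pow_eq_one (ξ := σ z) (by
        rw [← map_pow, pow_orderOf_eq_one, map_one])
      exact ⟨i, hi.symm⟩
    obtain ⟨i, hi⟩ := h2 σ
    obtain ⟨j, hj⟩ := h2 τ
    have h3 : (σ * τ) z = (τ * σ) z := by
      show σ (τ z) = τ (σ z)
      rw [hi, hj, map_pow, map_pow, hi, hj, ← pow_mul, ← pow_mul, mul_comm]
    show (τ * σ)⁻¹ ((σ * τ) z) = z
    rw [h3]
    show ((τ * σ)⁻¹ * (τ * σ)) z = z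
    rw [inv_mul_cancel]
    rfl
  generalize (τ * σ)⁻¹ * (σ * τ) = g at hfix
  have h2 : adjoin ℚ {z : Qb | z ^ p ^ N = 1} ≤ fixedField (Subgroup.zpowers g) := by
    rw [adjoin_le_iff]
    intro z hz
    have h3 : Subgroup.zpowers g ≤ MulAction.stabilizer Gal(Qb/ℚ) z := by
      rw [Subgroup.zpowers_le]
      exact hfix z hz
    exact (mem_fixedField_iff _ _).2 fun f hf => h3 hf
  rw [IntermediateField.mem_fixingSubgroup_iff]
  intro x hx
  exact (mem_fixedField_iff _ _).1 (h2 hx) g (Subgroup.mem_zpowers g)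

/-- A group with an open subgroup containing all commutators, of index `p ^ m * n`, `n` prime to `p`,
has a larger subgroup of index `p ^ m`. -/
theorem exi_group {G : Type} [Group G] {p m n : ℕ} (hp : p.Prime) (hn : ¬ p ∣ n) (hn0 : n ≠ 0)
    (U : Subgroup G) (hU : ∀ σ τ : G, (τ * σ)⁻¹ * (σ * τ) ∈ U) (hidx : U.index = p ^ m * n) :
    ∃ W : Subgroup G, U ≤ W ∧ W.index = p ^ m := by
  have hpf : Fact p.Prime := ⟨hp⟩
  have hUn : U.Normal := by
    refine ⟨fun x hx g => ?_⟩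
    have h1 : g * x * g⁻¹ = x * ((g⁻¹ * x)⁻¹ * (x * g⁻¹)) := by group
    rw [h1]
    exact U.mul_mem hx (hU x g⁻¹)
  have hcomm : ∀ a b : G ⧸ U, a * b = b * a := by
    rintro ⟨a⟩ ⟨b⟩
    have h1 : ((a * b : G) : G ⧸ U) = ((b * a : G) : G ⧸ U) := by
      rw [eq_comm, QuotientGroup.eq]
      exact hU a b
    exact h1
  have hcard : Nat.card (G ⧸ U) = p ^ m * n := hidx
  have hpm : p ^ m ≠ 0 := (pow_pos hp.pos m).ne'
  have hfin : Finite (G ⧸ U) := Nat.finite_of_card_ne_zero (by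
    rw [hcard]
    exact mul_ne_zero hpm hn0)
  obtain ⟨P⟩ : Nonempty (Sylow p (G ⧸ U)) := inferInstance
  have hPn : (P : Subgroup (G ⧸ U)).Normal := by
    refine ⟨fun x hx g => ?_⟩
    rw [hcomm g x, mul_inv_cancel_right]
    exact hx
  have hPc : Nat.card P = p ^ m := by
    rw [P.card_eq_multiplicity, hcard, Nat.factorization_mul hpm hn0]
    congr 1
    rw [Finsupp.add_apply, hp.factorization_pow, Finsupp.single_eq_same,
      Nat.factorization_eq_zero_of_not_dvd hn, add_zero]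
  have hPi : (P : Subgroup (G ⧸ U)).index = n := by
    have h1 := (P : Subgroup (G ⧸ U)).card_mul_index
    rw [hcard] at h1
    have h2 : Nat.card (P : Subgroup (G ⧸ U)) = p ^ m := hPc
    rw [h2] at h1
    exact Nat.eq_of_mul_eq_mul_left (Nat.pos_of_ne_zero hpm) h1
  obtain ⟨H, hH⟩ := Subgroup.exists_right_complement'_of_coprime (N := (P : Subgroup (G ⧸ U))) (by
    rw [hPi]
    have h2 : Nat.card (P : Subgroup (G ⧸ U)) = p ^ m := hPc
    rw [h2]
    exact Nat.Coprime.pow_left m ((Nat.Prime.coprime_iff_not_dvd hp).2 hn))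
  refine ⟨H.comap (QuotientGroup.mk' U), ?_, ?_⟩
  · intro x hx
    rw [Subgroup.mem_comap, QuotientGroup.mk'_apply, (QuotientGroup.eq_one_iff x).2 hx]
    exact H.one_mem
  · rw [Subgroup.index_comap_of_surjective _ (QuotientGroup.mk'_surjective U), hH.index_eq_card]
    exact hPc

theorem exists_layer {p : ℕ} (hp : p.Prime) (hp2 : p ≠ 2) (m : ℕ) :
    ∃ R : IntermediateField ℚ Qb, IsLayer p m R := by
  have _ := hp2
  have hc := exi_cyclotomic hp (m + 1)
  have hne : NeZero (p ^ (m + 1)) := ⟨(pow_pos hp.pos (m + 1)).ne'⟩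
  have hfd := (cyclo_poly hp (m + 1)).1
  have hfr : finrank ℚ (adjoin ℚ {z : Qb | z ^ p ^ (m + 1) = 1}) = p ^ m * (p - 1) := by
    rw [IsCyclotomicExtension.Rat.finrank (p ^ (m + 1)), Nat.totient_prime_pow_succ hp]
  have hp1 : 1 < p := hp.one_lt
  obtain ⟨W, hUW, hW⟩ := exi_group hp (n := p - 1) (m := m) (fun h => by
      have := Nat.le_of_dvd (by omega) h
      omega) (by omega) (adjoin ℚ {z : Qb | z ^ p ^ (m + 1) = 1}).fixingSubgroup
    (fun σ τ => exi_comm hp (m + 1) σ τ) (by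
      rw [← finrank_eq_fixingSubgroup_index Qb, hfr])
  have hWo : IsOpen (W : Set Gal(Qb/ℚ)) :=
    Subgroup.isOpen_mono hUW (IntermediateField.fixingSubgroup_isOpen _)
  refine ⟨fixedField W, ?_, m + 1, ?_⟩
  · rw [finrank_eq_fixingSubgroup_index Qb, fix_fixed hWo, hW]
  · intro x hx
    have h1 := InfiniteGalois.fixedField_fixingSubgroup
      (adjoin ℚ {z : Qb | z ^ p ^ (m + 1) = 1})
    rw [← h1, mem_fixedField_iff]
    intro f hf
    exact (mem_fixedField_iff _ _).1 hx f (hUW hf)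

end Pool.Agent.W5h33.DF
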