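import Mathlib

/-!
# Unipotent automorphisms of elementary abelian groups
-/

set_option autoImplicit false

namespace Pool.Agent.W5h33.DF

open Subgroup
open scoped commutatorElement

variable {V : Type} [CommGroup V]

/-- `(γ - 1) ^ (p ^ b) = γ ^ (p ^ b) - 1`. -/
theorem frob {p : ℕ} [hp : Fact p.Prime] (hV : ∀ v : V, v ^ p = 1) (g : MulAut V) (φ : V →* V)
    (hφ : ∀ v, φ v = g v * v⁻¹) (b : ℕ) (v : V) :
    φ^[p ^ b] v = (g ^ (p ^ b)) v * v⁻¹ := by
  classical
  let Φ : AddMonoid.End (Additive V) := MonoidHom.toAdditive φ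
  let G : AddMonoid.End (Additive V) := MonoidHom.toAdditive g.toMonoidHom
  have h1 : Φ = G - 1 := by
    ext x
    show Additive.ofMul (φ x.toMul) = Additive.ofMul (g x.toMul) - x
    rw [hφ, ofMul_mul, ofMul_inv, ← sub_eq_add_neg]
    rfl
  have hp0 : ((p : ℕ) : AddMonoid.End (Additive V)) = 0 := by
    ext x
    rw [AddMonoid.End.natCast_apply]
    exact hV x.toMul
  have h2 : Φ ^ (p ^ b) = G ^ (p ^ b) - 1 := by
    rcases subsingleton_or_nontrivial (AddMonoid.End (Additive V)) with h | h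
    · exact Subsingleton.elim _ _
    · have : CharP (AddMonoid.End (Additive V)) p := (CharP.charP_iff_prime_eq_zero hp.out).2 hp0
      rw [h1, sub_pow_char_pow_of_commute _ _ (Commute.one_right G), one_pow]
  have h3 : ∀ (n : ℕ) (x : Additive V), (Φ ^ n) x = Additive.ofMul (φ^[n] x.toMul) := by
    intro n
    induction n with
    | zero => intro x; rfl
    | succ n ih =>
      intro x
      rw [pow_succ]
      show (Φ ^ n) (Φ x) = _
      rw [ih, Function.iterate_succ_apply]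
      rfl
  have h4 : ∀ (n : ℕ) (x : Additive V), (G ^ n) x = Additive.ofMul ((g ^ n) x.toMul) := by
    intro n
    induction n with
    | zero => intro x; rfl
    | succ n ih =>
      intro x
      rw [pow_succ]
      show (G ^ n) (G x) = _
      rw [ih, pow_succ, MulAut.mul_apply]
      rfl
  have h5 := DFunLike.congr_fun h2 (Additive.ofMul v)
  rw [h3] at h5
  have h6 : (G ^ (p ^ b) - 1) (Additive.ofMul v) = (G ^ (p ^ b)) (Additive.ofMul v) - Additive.ofMul v := rfl
  rw [h6, h4] at h5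
  rw [← div_eq_mul_inv]
  exact h5

/-- `1 + γ + … + γ ^ (p ^ b - 1) = (γ - 1) ^ (p ^ b - 1)`. -/
theorem norm_frob {p : ℕ} [hp : Fact p.Prime] (hV : ∀ v : V, v ^ p = 1) (g : MulAut V) (φ : V →* V)
    (hφ : ∀ v, φ v = g v * v⁻¹) (b : ℕ) (v : V) :
    φ^[p ^ b - 1] v = ∏ i ∈ Finset.range (p ^ b), (g ^ i) v := by
  classical
  let Φ : AddMonoid.End (Additive V) := MonoidHom.toAdditive φ
  let G : AddMonoid.End (Additive V) := MonoidHom.toAdditive g.toMonoidHom
  have h1 : Φ = G - 1 := by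
    ext x
    show Additive.ofMul (φ x.toMul) = Additive.ofMul (g x.toMul) - x
    rw [hφ, ofMul_mul, ofMul_inv, ← sub_eq_add_neg]
    rfl
  have hp0 : ((p : ℕ) : AddMonoid.End (Additive V)) = 0 := by
    ext x
    rw [AddMonoid.End.natCast_apply]
    exact hV x.toMul
  have h0 : (Polynomial.X - 1 : Polynomial (ZMod p)) ^ (p ^ b - 1) =
      ∑ i ∈ Finset.range (p ^ b), (Polynomial.X : Polynomial (ZMod p)) ^ i := by
    have h2 : (Polynomial.X - 1 : Polynomial (ZMod p)) ≠ 0 := Polynomial.X_sub_C_ne_zero 1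
    apply mul_left_cancel₀ h2
    rw [← pow_succ', Nat.sub_add_cancel (Nat.one_le_iff_ne_zero.2 (pow_pos hp.out.pos b).ne'),
      mul_geom_sum, sub_pow_char_pow, one_pow]
  have h2 : Φ ^ (p ^ b - 1) = ∑ i ∈ Finset.range (p ^ b), G ^ i := by
    rcases subsingleton_or_nontrivial (AddMonoid.End (Additive V)) with h | h
    · exact Subsingleton.elim _ _
    · have : CharP (AddMonoid.End (Additive V)) p := (CharP.charP_iff_prime_eq_zero hp.out).2 hp0
      let _ : Algebra (ZMod p) (AddMonoid.End (Additive V)) := ZMod.algebra _ p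
      have h3 := congrArg (Polynomial.aeval (R := ZMod p) G) h0
      simp only [map_pow, map_sub, map_one, map_sum, Polynomial.aeval_X] at h3
      rw [h1]
      exact h3
  have h3 : ∀ (n : ℕ) (x : Additive V), (Φ ^ n) x = Additive.ofMul (φ^[n] x.toMul) := by
    intro n
    induction n with
    | zero => intro x; rfl
    | succ n ih =>
      intro x
      rw [pow_succ]
      show (Φ ^ n) (Φ x) = _
      rw [ih, Function.iterate_succ_apply]
      rfl
  have h4 : ∀ (n : ℕ) (x : Additive V), (G ^ n) x = Additive.ofMul ((g ^ n) x.toMul) := by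
    intro n
    induction n with
    | zero => intro x; rfl
    | succ n ih =>
      intro x
      rw [pow_succ]
      show (G ^ n) (G x) = _
      rw [ih, pow_succ, MulAut.mul_apply]
      rfl
  have h6 : ∀ (s : Finset ℕ) (x : Additive V), (∑ i ∈ s, G ^ i) x = ∑ i ∈ s, (G ^ i) x := by
    intro s x
    induction s using Finset.induction_on with
    | empty => rfl
    | insert a s ha ih =>
      rw [Finset.sum_insert ha, Finset.sum_insert ha, ← ih]
      rfl
  have h5 := DFunLike.congr_fun h2 (Additive.ofMul v)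
  rw [h3, h6, Finset.sum_congr rfl fun i _ => h4 i (Additive.ofMul v)] at h5
  exact h5

/-- The filtration by the images of the powers of `φ`. -/
def fil (U : Subgroup V) (φ : V →* V) : ℕ → Subgroup V
  | 0 => ⊤
  | j + 1 => U ⊔ (fil U φ j).map φ

theorem fil_succ (U : Subgroup V) (φ : V →* V) (j : ℕ) : fil U φ (j + 1) = U ⊔ (fil U φ j).map φ := rfl

theorem le_fil (U : Subgroup V) (φ : V →* V) (j : ℕ) : U ≤ fil U φ j := by
  cases j with
  | zero => exact le_top
  | succ j => exact le_sup_left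

theorem fil_anti (U : Subgroup V) (φ : V →* V) (j : ℕ) : fil U φ (j + 1) ≤ fil U φ j := by
  induction j with
  | zero => exact le_top
  | succ j ih =>
    rw [fil_succ U φ (j + 1), fil_succ U φ j]
    exact sup_le_sup_left (map_mono ih) _

theorem iter_mem (U : Subgroup V) (φ : V →* V) (j : ℕ) (v : V) : φ^[j] v ∈ fil U φ j := by
  induction j with
  | zero => exact mem_top _
  | succ j ih =>
    rw [Function.iterate_succ_apply']
    exact mem_sup_right (mem_map_of_mem φ ih)

theorem fil_elem {U : Subgroup V} {φ : V →* V} (hU : ∀ u ∈ U, φ u ∈ U) (j : ℕ) :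
    ∀ x ∈ fil U φ j, ∃ u ∈ U, ∃ v, x = u * φ^[j] v := by
  induction j with
  | zero =>
    intro x _
    exact ⟨1, U.one_mem, x, by simp⟩
  | succ j ih =>
    intro x hx
    rw [fil_succ, mem_sup] at hx
    obtain ⟨u, hu, _, ⟨y, hy, rfl⟩, rfl⟩ := hx
    obtain ⟨u', hu', v, rfl⟩ := ih y hy
    refine ⟨u * φ u', U.mul_mem hu (hU _ hu'), v, ?_⟩
    rw [map_mul, Function.iterate_succ_apply', mul_assoc]

theorem fil_stable {U : Subgroup V} {φ : V →* V} {h : MulAut V} (hU : ∀ u ∈ U, h u ∈ U)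
    (hc : ∀ v, h (φ v) = φ (h v)) (j : ℕ) : ∀ x ∈ fil U φ j, h x ∈ fil U φ j := by
  induction j with
  | zero => intro x _; exact mem_top _
  | succ j ih =>
    intro x hx
    rw [fil_succ, mem_sup] at hx
    obtain ⟨u, hu, _, ⟨y, hy, rfl⟩, rfl⟩ := hx
    rw [map_mul, hc]
    exact mul_mem (mem_sup_left (hU u hu)) (mem_sup_right (mem_map_of_mem φ (ih y hy)))

theorem relIndex_pow [Finite V] {p : ℕ} [hp : Fact p.Prime] (hV : ∀ v : V, v ^ p = 1)
    {T T' : Subgroup V} (hle : T' ≤ T) (hne : T' ≠ T) : ∃ n, n ≠ 0 ∧ T'.relIndex T = p ^ n := by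
  have hP : IsPGroup p V := fun v => ⟨1, by rw [pow_one]; exact hV v⟩
  have h2 : T'.relIndex T ≠ 1 := by
    rw [Ne, relIndex_eq_one]
    exact fun h => hne (le_antisymm hle h)
  obtain ⟨n, hn⟩ := (hP.to_subgroup T).index (T'.subgroupOf T)
  refine ⟨n, ?_, hn⟩
  rintro rfl
  exact h2 (hn.trans (pow_zero p))

/-- Either the filtration has reached `U`, or the index is large. -/
theorem chain [Finite V] {p : ℕ} [hp : Fact p.Prime] (hV : ∀ v : V, v ^ p = 1) {U : Subgroup V}
    {φ : V →* V} (hU : ∀ u ∈ U, φ u ∈ U) {N : ℕ} (hN : ∀ v, φ^[N] v = 1) {d : ℕ}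
    (hd : ∀ j, ∀ n, n ≠ 0 → (fil U φ (j + 1)).relIndex (fil U φ j) = p ^ n → d ≤ n) (j : ℕ) :
    fil U φ j = U ∨ p ^ (d * j) ≤ (fil U φ j).index := by
  classical
  induction j with
  | zero =>
    right
    rw [mul_zero, pow_zero]
    exact Nat.one_le_iff_ne_zero.2 (fil U φ 0).index_ne_zero_of_finite
  | succ j ih =>
    by_cases heq : fil U φ (j + 1) = fil U φ j
    · left
      have h1 : ∀ i, fil U φ (j + i) = fil U φ j := by
        intro i
        induction i with
        | zero => rfl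
        | succ i ih =>
          rw [← add_assoc, fil_succ, ih, ← fil_succ, heq]
      have h2 : fil U φ (j + N) ≤ U := by
        intro x hx
        obtain ⟨u, hu, v, rfl⟩ := fil_elem hU (j + N) x hx
        have h3 : φ^[j + N] v = 1 := by
          rw [Function.iterate_add_apply, hN]
          exact iterate_map_one φ j
        rw [h3, mul_one]
        exact hu
      rw [heq, ← h1 N]
      exact le_antisymm h2 (le_fil U φ _)
    · rcases ih with h | h
      · exfalso
        apply heq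
        exact le_antisymm (fil_anti U φ j) (by rw [h]; exact le_fil U φ _)
      · right
        obtain ⟨n, hn0, hn⟩ := relIndex_pow hV (fil_anti U φ j) heq
        rw [← relIndex_mul_index (fil_anti U φ j), mul_add, mul_one, pow_add, mul_comm, hn]
        exact Nat.mul_le_mul (Nat.pow_le_pow_right hp.out.pos (hd j n hn0 hn)) h

/-- The elements which act trivially on a subquotient. -/
def actSub {G : Type} [Group G] (ρ : G →* MulAut V) (T T' : Subgroup V)
    (hT : ∀ g, ∀ v ∈ T, ρ g v ∈ T) : Subgroup G where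
  carrier := {c | ∀ v ∈ T, ρ c v * v⁻¹ ∈ T'}
  mul_mem' := by
    intro a b ha hb v hv
    have h1 : ρ (a * b) v * v⁻¹ = (ρ a (ρ b v) * (ρ b v)⁻¹) * (ρ b v * v⁻¹) := by
      rw [map_mul, MulAut.mul_apply, mul_assoc, inv_mul_cancel_left]
    rw [h1]
    exact T'.mul_mem (ha _ (hT b v hv)) (hb v hv)
  one_mem' := by
    intro v _
    rw [map_one, MulAut.one_apply, mul_inv_cancel]
    exact T'.one_mem
  inv_mem' := by
    intro a ha v hv
    have h1 := ha (ρ a⁻¹ v) (hT _ v hv)
    have h2 : ρ a (ρ a⁻¹ v) = v := by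
      rw [← MulAut.mul_apply, ← map_mul, mul_inv_cancel, map_one, MulAut.one_apply]
    rw [h2] at h1
    have h3 := T'.inv_mem h1
    rw [mul_inv_rev, inv_inv] at h3
    exact h3

theorem mem_actSub {G : Type} [Group G] {ρ : G →* MulAut V} {T T' : Subgroup V}
    {hT : ∀ g, ∀ v ∈ T, ρ g v ∈ T} {c : G} :
    c ∈ actSub ρ T T' hT ↔ ∀ v ∈ T, ρ c v * v⁻¹ ∈ T' := Iff.rfl

/-- The commutators act trivially on a subquotient of order `p`. -/
theorem comm_act {G : Type} [Group G] (ρ : G →* MulAut V) {T T' : Subgroup V}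
    (hT : ∀ g, ∀ v ∈ T, ρ g v ∈ T) (hT' : ∀ g, ∀ v ∈ T', ρ g v ∈ T') {p : ℕ} (hp : p.Prime)
    (hidx : T'.relIndex T = p) : commutator G ≤ actSub ρ T T' hT := by
  classical
  have hcard : Nat.card (T ⧸ T'.subgroupOf T) = p := hidx
  have hpf : Fact p.Prime := ⟨hp⟩
  have hcyc : IsCyclic (T ⧸ T'.subgroupOf T) := isCyclic_of_prime_card hcard
  obtain ⟨q₀, hq₀⟩ := hcyc.exists_generator
  obtain ⟨v₀, rfl⟩ := QuotientGroup.mk_surjective q₀
  have hgen : ∀ v ∈ T, ∃ k : ℤ, v * ((v₀ : V) ^ k)⁻¹ ∈ T' := by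
    intro v hv
    obtain ⟨k, hk⟩ := hq₀ (QuotientGroup.mk ⟨v, hv⟩)
    refine ⟨k, ?_⟩
    have h1 : (QuotientGroup.mk (v₀ ^ k) : T ⧸ T'.subgroupOf T) = QuotientGroup.mk ⟨v, hv⟩ := hk
    rw [QuotientGroup.eq] at h1
    have h2 : ((v₀ : V) ^ k)⁻¹ * v ∈ T' := h1
    rwa [mul_comm] at h2
  have hπ : ∀ a b : V, (a : V ⧸ T') = (b : V ⧸ T') ↔ a * b⁻¹ ∈ T' := by
    intro a b
    rw [QuotientGroup.eq, mul_comm, ← inv_mem_iff, mul_inv_rev, inv_inv, mul_comm]
  have hmap : ∀ g : G, ∀ a b : V, (a : V ⧸ T') = (b : V ⧸ T') →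
      ((ρ g a : V) : V ⧸ T') = ((ρ g b : V) : V ⧸ T') := by
    intro g a b h
    rw [hπ] at h ⊢
    rw [← map_inv, ← map_mul]
    exact hT' g _ h
  have hexp : ∀ g : G, ∃ k : ℤ, ∀ v ∈ T, ((ρ g v : V) : V ⧸ T') = ((v : V) : V ⧸ T') ^ k := by
    intro g
    obtain ⟨k, hk⟩ := hgen _ (hT g v₀ v₀.2)
    rw [← hπ, QuotientGroup.mk_zpow] at hk
    refine ⟨k, fun v hv => ?_⟩
    obtain ⟨l, hl⟩ := hgen v hv
    rw [← hπ] at hl
    rw [hmap g _ _ hl, map_zpow, QuotientGroup.mk_zpow, hk, hl, QuotientGroup.mk_zpow, ← zpow_mul,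
      ← zpow_mul, mul_comm]
  rw [commutator_def, commutator_le]
  intro g _ h _ v hv
  obtain ⟨a, ha⟩ := hexp g
  obtain ⟨b, hb⟩ := hexp h
  set u : V := ρ (h * g)⁻¹ v with hu
  have huT : u ∈ T := hT _ v hv
  have h1 : ρ (h * g) u = v := by
    rw [hu, ← MulAut.mul_apply, ← map_mul, mul_inv_cancel, map_one, MulAut.one_apply]
  have h2 : ρ ⁅g, h⁆ v = ρ (g * h) u := by
    rw [hu, ← MulAut.mul_apply, ← map_mul]
    congr 2
    rw [commutatorElement_def]
    group
  rw [h2, ← h1, ← hπ, map_mul, map_mul, MulAut.mul_apply, MulAut.mul_apply,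
    ha _ (hT h u huT), hb _ huT, hb _ (hT g u huT), ha _ huT, ← zpow_mul, ← zpow_mul, mul_comm]

end Pool.Agent.W5h33.DF
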