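import Pool.Agent.W5h77.MB.Mu

/-!
# The primes above `p` in the fields of roots of unity of `p`-power order (helper21 for helper33)
-/

set_option autoImplicit false

namespace Pool.Agent.W5h33.DF

open IntermediateField Module Pool.Agent.Q60.MU Pool.Agent.W5h77.MB
open scoped Pointwise

section val
variable {L : Type} [Field L] {p : ℕ}

/-- Roots of unity of `p`-power order are congruent to `1` modulo each place above `p`. -/
theorem cyc_root_sub_one (hp : p.Prime) {A : ValuationSubring L} (hA : (p : L) ∈ A.nonunits)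
    {N : ℕ} {ζ : L} (hζ : ζ ^ p ^ N = 1) : ζ - 1 ∈ A.nonunits := by
  have hpf : Fact p.Prime := ⟨hp⟩
  have hmem : ζ ∈ A := by
    have h1 : A.valuation ζ ^ p ^ N = 1 := by rw [← map_pow, hζ, map_one]
    have h2 : A.valuation ζ ≤ 1 := by
      by_contra h
      rw [not_le] at h
      exact absurd h1 (one_lt_pow₀ h (pow_pos hp.pos N).ne').ne'
    exact (A.valuation_le_one_iff _).1 h2
  let z : A := ⟨ζ, hmem⟩
  have hpm : (p : A) ∈ IsLocalRing.maximalIdeal A := by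
    rw [← A.coe_mem_nonunits_iff]
    exact_mod_cast hA
  have h0 : ((p : ℕ) : IsLocalRing.ResidueField A) = 0 := by
    have h1 := (IsLocalRing.residue_eq_zero_iff (p : A)).2 hpm
    rwa [map_natCast] at h1
  have hch : CharP (IsLocalRing.ResidueField A) p := (CharP.charP_iff_prime_eq_zero hp).2 h0
  have hz : z ^ p ^ N = 1 := Subtype.ext hζ
  have h2 : (IsLocalRing.residue A z - 1) ^ p ^ N = 0 := by
    rw [sub_pow_char_pow, ← map_pow, hz, map_one, one_pow, sub_self]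
  have h3 : IsLocalRing.residue A (z - 1) = 0 := by
    rw [map_sub, map_one]
    exact pow_eq_zero_iff (pow_pos hp.pos N).ne' |>.1 h2
  have h4 := (IsLocalRing.residue_eq_zero_iff (z - 1)).1 h3
  rw [← A.coe_mem_nonunits_iff] at h4
  exact h4

theorem cyc_eval_sub (hp : p.Prime) {A : ValuationSubring L} (hA : (p : L) ∈ A.nonunits)
    {N : ℕ} {ζ : L} (hζ : ζ ^ p ^ N = 1) (f : Polynomial ℤ) :
    f.eval₂ (Int.castRingHom L) ζ - ((f.eval 1 : ℤ) : L) ∈ A.nonunits := by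
  induction f using Polynomial.induction_on' with
  | add f g hf hg =>
    have h : (f + g).eval₂ (Int.castRingHom L) ζ - (((f + g).eval 1 : ℤ) : L) =
        (f.eval₂ (Int.castRingHom L) ζ - ((f.eval 1 : ℤ) : L)) +
        (g.eval₂ (Int.castRingHom L) ζ - ((g.eval 1 : ℤ) : L)) := by
      rw [Polynomial.eval₂_add, Polynomial.eval_add]
      push_cast
      ring
    rw [h]
    exact add_mem hf hg
  | monomial n a =>
    have h : (Polynomial.monomial n a).eval₂ (Int.castRingHom L) ζ -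
        (((Polynomial.monomial n a).eval 1 : ℤ) : L) = a • (ζ ^ n - 1) := by
      rw [Polynomial.eval₂_monomial, Polynomial.eval_monomial, one_pow, mul_one, zsmul_eq_mul]
      simp only [eq_intCast]
      ring
    rw [h]
    refine zsmul_mem (cyc_root_sub_one hp hA (N := N) ?_) a
    rw [← pow_mul, mul_comm, pow_mul, hζ, one_pow]

theorem cyc_int_iff (hp : p.Prime) {A : ValuationSubring L} (hA : (p : L) ∈ A.nonunits) (n : ℤ) :
    (n : L) ∈ A.nonunits ↔ (p : ℤ) ∣ n := by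
  constructor
  · intro hn
    by_contra hd
    have hc : IsCoprime (p : ℤ) n :=
      (Int.prime_iff_natAbs_prime.2 (by simpa using hp)).coprime_iff_not_dvd.2 hd
    obtain ⟨u, v, huv⟩ := hc
    have h1 : (u • (p : L) + v • (n : L)) = 1 := by
      rw [zsmul_eq_mul, zsmul_eq_mul]
      exact_mod_cast congrArg (Int.cast : ℤ → L) huv
    have h2 : (1 : L) ∈ A.nonunits := by
      rw [← h1]
      exact add_mem (zsmul_mem hA u) (zsmul_mem hn v)
    rw [ValuationSubring.mem_nonunits_iff, map_one] at h2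
    exact lt_irrefl _ h2
  · rintro ⟨k, rfl⟩
    have h1 : (((p : ℤ) * k : ℤ) : L) = k • (p : L) := by
      rw [zsmul_eq_mul]
      push_cast
      ring
    rw [h1]
    exact zsmul_mem hA k

theorem cyc_iff (hp : p.Prime) {A : ValuationSubring L} (hA : (p : L) ∈ A.nonunits)
    {N : ℕ} {ζ : L} (hζ : ζ ^ p ^ N = 1) (f : Polynomial ℤ) :
    f.eval₂ (Int.castRingHom L) ζ ∈ A.nonunits ↔ (p : ℤ) ∣ f.eval 1 := by
  have h1 := cyc_eval_sub hp hA hζ f
  rw [← cyc_int_iff hp hA]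
  constructor
  · intro h
    have h2 := sub_mem h h1
    rwa [sub_sub_cancel] at h2
  · intro h
    have h2 := add_mem h1 h
    rwa [sub_add_cancel] at h2

end val

/-- The integers of the field of the `p ^ N`-th roots of unity are polynomials in a root of unity. -/
theorem cyclo_poly {p : ℕ} (hp : p.Prime) (N : ℕ) :
    FiniteDimensional ℚ (adjoin ℚ {z : Qb | z ^ p ^ N = 1}) ∧
    ∀ z : adjoin ℚ {z : Qb | z ^ p ^ N = 1}, IsIntegral ℤ z →
      ∃ (ζ : adjoin ℚ {z : Qb | z ^ p ^ N = 1}) (f : Polynomial ℤ), ζ ^ p ^ N = 1 ∧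
        f.eval₂ (Int.castRingHom _) ζ = z := by
  have hpf : Fact p.Prime := ⟨hp⟩
  have hne : NeZero (p ^ N) := ⟨(pow_pos hp.pos N).ne'⟩
  have hpQ : NeZero ((p ^ N : ℕ) : Qb) := ⟨by exact_mod_cast (pow_pos hp.pos N).ne'⟩
  obtain ⟨ξ, hξ⟩ := HasEnoughRootsOfUnity.exists_primitiveRoot Qb (p ^ N)
  have hc : IsCyclotomicExtension {p ^ N} ℚ (adjoin ℚ {z : Qb | z ^ p ^ N = 1}) := by
    refine (IntermediateField.isCyclotomicExtension_singleton_iff_eq_adjoin (K := ℚ) (L := Qb)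
      (n := p ^ N) (hζ := hξ) _).2 ?_
    apply le_antisymm
    · rw [adjoin_le_iff]
      intro x hx
      obtain ⟨k, _, rfl⟩ := hξ.eq_pow_of_pow_eq_one hx
      exact pow_mem (mem_adjoin_simple_self ℚ ξ) k
    · rw [adjoin_simple_le_iff]
      exact subset_adjoin ℚ _ hξ.pow_eq_one
  obtain ⟨ζ, hζ⟩ := hc.1 rfl (NeZero.ne (p ^ N))
  refine ⟨IsCyclotomicExtension.finiteDimensional {p ^ N} ℚ _, fun z hz => ?_⟩
  have hi := IsCyclotomicExtension.Rat.isIntegralClosure_adjoin_singleton_of_prime_pow hζ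
  obtain ⟨y, hy⟩ := hi.isIntegral_iff.1 hz
  have hy2 : z ∈ Algebra.adjoin ℤ ({ζ} : Set (adjoin ℚ {z : Qb | z ^ p ^ N = 1})) := by
    rw [← hy]
    exact y.2
  rw [Algebra.adjoin_singleton_eq_range_aeval] at hy2
  obtain ⟨f, hf⟩ := hy2
  refine ⟨ζ, f, hζ.pow_eq_one, ?_⟩
  rw [← hf]
  have h1 : (algebraMap ℤ (adjoin ℚ {z : Qb | z ^ p ^ N = 1})) = Int.castRingHom _ :=
    RingHom.ext_int _ _
  rw [← h1]
  rfl

theorem cyclo_onePrime {p : ℕ} (hp : p.Prime) (N : ℕ) :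
    OnePrime p (adjoin ℚ {z : Qb | z ^ p ^ N = 1}) := by
  intro A B hA hB
  obtain ⟨hfd, hpoly⟩ := cyclo_poly hp N
  have hnt : ∀ C : ValuationSubring (adjoin ℚ {z : Qb | z ^ p ^ N = 1}),
      (p : adjoin ℚ {z : Qb | z ^ p ^ N = 1}) ∈ C.nonunits → C ≠ ⊤ := by
    intro C hC htop
    have h2 : ((p : adjoin ℚ {z : Qb | z ^ p ^ N = 1}))⁻¹ ∈ C := by rw [htop]; trivial
    rw [ValuationSubring.mem_nonunits_iff_or] at hC
    rcases hC with h3 | h3
    · exact hp.ne_zero (by exact_mod_cast h3)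
    · exact h3 h2
  refine Pool.Agent.H639R3.eq_of_integral_nonunits (A := ℤ) (F := ℚ) A B (fun a => ?_)
    (fun a => ?_) (hnt A hA) (hnt B hB) ?_
  · exact intCast_mem A a
  · exact intCast_mem B a
  · intro z hz
    obtain ⟨ζ, f, hζ, rfl⟩ := hpoly z hz
    rw [← ValuationSubring.mem_nonunits_iff, ← ValuationSubring.mem_nonunits_iff,
      cyc_iff hp hA hζ, cyc_iff hp hB hζ]

theorem cyclo_residue {p : ℕ} (hp : p.Prime) (N : ℕ) {A : ValuationSubring Qb}
    (hA : (p : Qb) ∈ A.nonunits) (σ : Gal(Qb/ℚ)) {z : Qb}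
    (hz : z ∈ adjoin ℚ {z : Qb | z ^ p ^ N = 1}) (hzi : IsIntegral ℤ z) :
    σ z - z ∈ A.nonunits := by
  obtain ⟨-, hpoly⟩ := cyclo_poly hp N
  have hzi' : IsIntegral ℤ (⟨z, hz⟩ : adjoin ℚ {z : Qb | z ^ p ^ N = 1}) :=
    (isIntegral_algHom_iff ((adjoin ℚ {z : Qb | z ^ p ^ N = 1}).val.restrictScalars ℤ)
      Subtype.val_injective).1 hzi
  obtain ⟨ζ, f, hζ, hf⟩ := hpoly ⟨z, hz⟩ hzi'
  have hζ' : (ζ : Qb) ^ p ^ N = 1 := congrArg Subtype.val hζ
  have hf' : f.eval₂ (Int.castRingHom Qb) (ζ : Qb) = z := by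
    have h1 := congrArg (algebraMap (adjoin ℚ {z : Qb | z ^ p ^ N = 1}) Qb) hf
    rw [Polynomial.hom_eval₂] at h1
    have h2 : (algebraMap (adjoin ℚ {z : Qb | z ^ p ^ N = 1}) Qb).comp (Int.castRingHom _) =
      Int.castRingHom Qb := RingHom.ext_int _ _
    rw [h2] at h1
    exact h1
  have h2 : σ z = f.eval₂ (Int.castRingHom Qb) (σ (ζ : Qb)) := by
    rw [← hf']
    have h1 := Polynomial.hom_eval₂ f (Int.castRingHom Qb) ((σ : Qb ≃ₐ[ℚ] Qb) : Qb →+* Qb) (ζ : Qb)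
    have h2 : ((σ : Qb ≃ₐ[ℚ] Qb) : Qb →+* Qb).comp (Int.castRingHom Qb) = Int.castRingHom Qb :=
      RingHom.ext_int _ _
    rw [h2] at h1
    exact h1
  have h3 := cyc_eval_sub hp hA hζ' f
  have h4 := cyc_eval_sub hp hA (ζ := σ (ζ : Qb)) (N := N) (by rw [← map_pow, hζ', map_one]) f
  rw [← h2] at h4
  rw [hf'] at h3
  have h5 := sub_mem h4 h3
  rwa [sub_sub_sub_cancel_right] at h5

end Pool.Agent.W5h33.DF
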