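import Pool.Agent.W5h33.DF.Main
import Pool.Agent.W5h77.MB.Mu

/-!
# Translation to number fields
-/

set_option autoImplicit false

namespace Pool.Agent.W5h33.DF

open IntermediateField Module Pool.Agent.Q60.MU Pool.Agent.W5h77.MB
open scoped Pointwise commutatorElement

/-- The layers are cyclic over `ℚ`. -/
theorem layer_cyclic {p m : ℕ} (hp : p.Prime) (hp2 : p ≠ 2) {R : IntermediateField ℚ Qb}
    (hR : IsLayer p m R) : ∃ σ : Gal(Qb/ℚ), ∀ τ, ∃ i : ℤ, τ * (σ ^ i)⁻¹ ∈ R.fixingSubgroup := by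
  obtain ⟨-, N, hN⟩ := hR
  have hpn : NeZero (p ^ N) := ⟨(pow_pos hp.pos N).ne'⟩
  have hpQ : NeZero ((p ^ N : ℕ) : Qb) := ⟨by exact_mod_cast (pow_pos hp.pos N).ne'⟩
  have hne : HasEnoughRootsOfUnity Qb (p ^ N) := inferInstance
  have hn : Nat.card { x // x ∈ rootsOfUnity (p ^ N) Qb } = p ^ N :=
    HasEnoughRootsOfUnity.natCard_rootsOfUnity Qb (p ^ N)
  let f : Gal(Qb/ℚ) →* (Qb ≃+* Qb) :=
    { toFun := fun g => g.toRingEquiv
      map_one' := rfl
      map_mul' := fun _ _ => rfl }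
  let χ : Gal(Qb/ℚ) →* (ZMod (p ^ N))ˣ := (modularCyclotomicCharacter Qb hn).comp f
  have hcyc : IsCyclic (ZMod (p ^ N))ˣ := ZMod.isCyclic_units_of_prime_pow p hp hp2 N
  have hcr : IsCyclic χ.range := inferInstance
  obtain ⟨⟨_, σ, rfl⟩, hσ⟩ := hcr.exists_generator
  refine ⟨σ, fun τ => ?_⟩
  obtain ⟨i, hi⟩ := hσ ⟨χ τ, τ, rfl⟩
  refine ⟨i, ?_⟩
  have h1 : χ (τ * (σ ^ i)⁻¹) = 1 := by
    have h2 : (χ σ) ^ i = χ τ := congrArg Subtype.val hi
    rw [map_mul, map_inv, map_zpow, h2, mul_inv_cancel]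
  generalize τ * (σ ^ i)⁻¹ = g at h1 ⊢
  have h2 : adjoin ℚ {z : Qb | z ^ p ^ N = 1} ≤ fixedField (Subgroup.zpowers g) := by
    rw [adjoin_le_iff]
    intro z hz
    have hz0 : z ≠ 0 := by
      rintro rfl
      have h3 : (0 : Qb) ^ p ^ N = 1 := hz
      rw [zero_pow (pow_pos hp.pos N).ne'] at h3
      exact zero_ne_one h3
    have h3 : Subgroup.zpowers g ≤ MulAction.stabilizer Gal(Qb/ℚ) z := by
      rw [Subgroup.zpowers_le]
      have h4 : (Units.mk0 z hz0) ∈ rootsOfUnity (p ^ N) Qb := by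
        rw [mem_rootsOfUnity]
        ext
        exact hz
      have h5 := modularCyclotomicCharacter.spec Qb hn (f g) h4
      have h6 : modularCyclotomicCharacter Qb hn (f g) = 1 := h1
      rw [h6] at h5
      show g z = z
      have h7 : (f g) z = z := by
        rcases Nat.eq_or_lt_of_le (Nat.one_le_iff_ne_zero.2 (pow_pos hp.pos N).ne') with h | h
        · have h8 : z ^ p ^ N = 1 := hz
          rw [← h, pow_one] at h8
          rw [h8, map_one]
        · have : Fact (1 < p ^ N) := ⟨h⟩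
          simpa [ZMod.val_one] using h5
      exact h7
    exact (mem_fixedField_iff _ _).2 fun f hf => h3 hf
  rw [IntermediateField.mem_fixingSubgroup_iff]
  intro x hx
  exact (mem_fixedField_iff _ _).1 (h2 (hN hx)) g (Subgroup.mem_zpowers g)

section bot
variable {L : Type} [Field L] {p : ℕ}

theorem val_int_le (A : ValuationSubring L) (n : ℤ) : A.valuation (n : L) ≤ 1 :=
  (A.valuation_le_one_iff _).2 (intCast_mem A n)

theorem val_cop (hp : p.Prime) {A : ValuationSubring L} (hA : (p : L) ∈ A.nonunits) {n : ℤ}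
    (hn : ¬ (p : ℤ) ∣ n) : A.valuation (n : L) = 1 := by
  rw [ValuationSubring.mem_nonunits_iff] at hA
  refine le_antisymm (val_int_le A n) ?_
  by_contra hlt
  rw [not_le] at hlt
  have hc : IsCoprime (p : ℤ) n :=
    (Int.prime_iff_natAbs_prime.2 (by simpa using hp)).coprime_iff_not_dvd.2 hn
  obtain ⟨u, v, huv⟩ := hc
  have h1 : ((u : L)) * (p : L) + (v : L) * (n : L) = 1 := by exact_mod_cast congrArg (Int.cast : ℤ → L) huv
  have h2 : A.valuation (1 : L) < 1 := by
    rw [← h1]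
    refine lt_of_le_of_lt (A.valuation.map_add _ _) (max_lt ?_ ?_)
    · rw [map_mul, mul_comm]
      exact mul_lt_one_of_lt_of_le hA (val_int_le A u)
    · rw [map_mul, mul_comm]
      exact mul_lt_one_of_lt_of_le hlt (val_int_le A v)
  rw [map_one] at h2
  exact lt_irrefl _ h2

theorem rat_mem_iff [CharZero L] (hp : p.Prime) {A : ValuationSubring L} (hA : (p : L) ∈ A.nonunits) (r : ℚ) :
    (r : L) ∈ A ↔ ¬ (p : ℤ) ∣ (r.den : ℤ) := by
  have hr : (r : L) = (r.num : L) / ((r.den : ℤ) : L) := by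
    rw [Rat.cast_def]
    push_cast
    rfl
  rw [← A.valuation_le_one_iff, hr, map_div₀]
  by_cases hd : (p : ℤ) ∣ (r.den : ℤ)
  · have hn : ¬ (p : ℤ) ∣ r.num := by
      intro h
      have h1 : p ∣ r.den := by exact_mod_cast hd
      have h2 : p ∣ r.num.natAbs := Int.natCast_dvd.1 h
      have h3 := Nat.dvd_gcd h2 h1
      rw [r.reduced] at h3
      exact hp.one_lt.ne' (Nat.dvd_one.1 h3)
    rw [val_cop hp hA hn]
    refine ⟨fun h => ?_, fun h => absurd hd h⟩
    exfalso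
    have h1 : A.valuation (((r.den : ℤ) : L)) < 1 := by
      obtain ⟨k, hk⟩ := hd
      rw [hk]
      push_cast
      rw [map_mul]
      exact mul_lt_one_of_lt_of_le ((ValuationSubring.mem_nonunits_iff A).1 hA) (val_int_le A k)
    have h0 : A.valuation (((r.den : ℤ) : L)) ≠ 0 := by
      rw [Ne, map_eq_zero]
      exact_mod_cast r.den_ne_zero
    have h2 := (div_le_one₀ (zero_lt_iff.2 h0)).1 h
    exact absurd h1 (not_lt.2 h2)
  · rw [val_cop hp hA hd, div_one]
    exact ⟨fun _ => hd, fun _ => val_int_le A _⟩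

end bot

/-- There is only one prime above `p` in `ℚ`. -/
theorem onePrime_bot {p : ℕ} (hp : p.Prime) : OnePrime p (⊥ : IntermediateField ℚ Qb) := by
  intro A B hA hB
  ext x
  obtain ⟨r, hr⟩ := (IntermediateField.mem_bot.1 x.2)
  have h1 : x = (r : (⊥ : IntermediateField ℚ Qb)) := by
    apply Subtype.ext
    rw [← hr]
    simp
  rw [h1, rat_mem_iff hp hA, rat_mem_iff hp hB]


/-- `Z` is the decomposition field in `K / B` of the prime of `K` below `A`: the field of the elements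
of `K` which are fixed by all automorphisms over `B` of the algebraic numbers which stabilize `A`. -/
def IsDecompositionField (A : ValuationSubring Qb) (B K Z : IntermediateField ℚ Qb) : Prop :=
  ∀ x, x ∈ Z ↔ x ∈ K ∧ ∀ σ ∈ B.fixingSubgroup, σ • A = A → σ x = x

theorem fd_of_le {M K : IntermediateField ℚ Qb} [FiniteDimensional ℚ K] (h : M ≤ K) :
    FiniteDimensional ℚ M :=
  Submodule.finiteDimensional_of_le (S₁ := Subalgebra.toSubmodule M.toSubalgebra)
    (S₂ := Subalgebra.toSubmodule K.toSubalgebra) h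

theorem not_degLe_zero {p : ℕ} (E : IntermediateField ℚ Qb) [FiniteDimensional ℚ E] :
    ¬ DegLe p E 0 := by
  rw [← rankLe_iff]
  intro h
  have h1 := h E.fixingSubgroup le_rfl E.fixingSubgroup_isOpen (by
    rw [Subgroup.relIndex_self]
    exact one_ne_zero) (by
    rintro x ((⟨a, ha, rfl⟩ | ⟨a, ha, b, hb, rfl⟩) | ⟨hx, w, hw⟩)
    · exact pow_mem ha p
    · rw [commutatorElement_def]
      exact mul_mem (mul_mem (mul_mem ha hb) (inv_mem ha)) (inv_mem hb)
    · exact hx)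
  rw [Subgroup.relIndex_self] at h1
  exact absurd h1 (by norm_num)

theorem fix_abPart (K : IntermediateField ℚ Qb) [FiniteDimensional ℚ K] :
    (abPart K).fixingSubgroup = K.fixingSubgroup ⊔ commutator Gal(Qb/ℚ) := by
  apply fix_of_mem
  intro x
  rw [mem_abPart]
  refine and_congr_right fun _ => ⟨fun h b hb => ?_, fun h σ τ => ?_⟩
  · have h1 : commutator Gal(Qb/ℚ) ≤ MulAction.stabilizer Gal(Qb/ℚ) x := by
      rw [commutator_def, Subgroup.commutator_le]
      intro σ _ τ _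
      show (σ * τ * σ⁻¹ * τ⁻¹) x = x
      have h2 : (σ * τ * σ⁻¹ * τ⁻¹) x = σ (τ (σ⁻¹ (τ⁻¹ x))) := rfl
      rw [h2, h σ⁻¹ τ⁻¹]
      show (σ * (τ * (τ⁻¹ * σ⁻¹))) x = x
      rw [mul_inv_cancel_left, mul_inv_cancel]
      rfl
    exact h1 hb
  · have h1 : ⁅τ⁻¹, σ⁻¹⁆ x = x := h _ (by
      rw [commutator_def]
      exact Subgroup.commutator_mem_commutator (Subgroup.mem_top _) (Subgroup.mem_top _))
    have h2 : (σ * τ * ⁅τ⁻¹, σ⁻¹⁆) x = (τ * σ) x := by
      congr 1
      rw [commutatorElement_def]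
      group
    have h3 : (σ * τ * ⁅τ⁻¹, σ⁻¹⁆) x = (σ * τ) (⁅τ⁻¹, σ⁻¹⁆ x) := rfl
    rw [h3, h1] at h2
    exact h2

theorem normal_of_comm {G : Type} [Group G] {H : Subgroup G} (h : commutator G ≤ H) : H.Normal := by
  refine ⟨fun x hx g => ?_⟩
  have h1 : g * x * g⁻¹ = ⁅g, x⁆ * x := by
    rw [commutatorElement_def]
    group
  rw [h1]
  refine H.mul_mem (h ?_) hx
  rw [commutator_def]
  exact Subgroup.commutator_mem_commutator (Subgroup.mem_top _) (Subgroup.mem_top _)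

section
variable {p : ℕ} [hp : Fact p.Prime] {B K Z : IntermediateField ℚ Qb} [FiniteDimensional ℚ K]
  [hKg : IsGalois ℚ K]

theorem bound (hp2 : p ≠ 2) (hB : B ≤ abPart K)
    (hpK : ∃ n, finrank ℚ K = n * finrank ℚ B ∧ ¬ p ∣ n) {A : ValuationSubring Qb}
    (hA : (p : Qb) ∈ A.nonunits) (hZ : IsDecompositionField A B K Z) {m m' : ℕ}
    {R R' : IntermediateField ℚ Qb} (hR : IsLayer p m R) (hR' : IsLayer p m' R') (hRR : R ≤ R')
    {C E T : ℕ} (hC : DegLe p (K ⊔ R) C) (hE : ¬ DegLe p (abPart K ⊔ R) E)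
    (hCE : C < p ^ (2 * (finrank ℚ ↥(K ⊔ R) / finrank ℚ K)) * (E + 1))
    (hT : (∃ CF CZ, DegLe p (abPart K ⊔ R') CF ∧ DegLe p (Z ⊔ R') CZ ∧
        T = CF * CZ ^ finrank ℚ Z) ∨ (Z ≤ abPart K ∧ DegLe p (abPart K ⊔ R') T)) :
    DegLe p (K ⊔ R') (C / (E + 1) * T) := by
  have hfR := layer_fd hp.out hR
  have hfR' := layer_fd hp.out hR'
  have hZK : Z ≤ K := fun x hx => ((hZ x).1 hx).1
  have hfZ : FiniteDimensional ℚ Z := fd_of_le hZK
  have hfA : FiniteDimensional ℚ (abPart K) := fd_of_le (abPart_le K)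
  have hfB : FiniteDimensional ℚ B := fd_of_le (hB.trans (abPart_le K))
  have hKn : K.fixingSubgroup.Normal := (InfiniteGalois.normal_iff_isGalois K).2 hKg
  have hfab := fix_abPart K
  have hcA : commutator Gal(Qb/ℚ) ≤ (abPart K).fixingSubgroup := by
    rw [hfab]
    exact le_sup_right
  have hFn : (abPart K).fixingSubgroup.Normal := normal_of_comm hcA
  have hFB : (abPart K).fixingSubgroup ≤ B.fixingSubgroup := fixingSubgroup_le hB
  have hBn : B.fixingSubgroup.Normal := normal_of_comm (hcA.trans hFB)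
  have hKF : K.fixingSubgroup ≤ (abPart K).fixingSubgroup := fixingSubgroup_le (abPart_le K)
  have hRn := layer_normal hp.out hR
  have hR'n := layer_normal hp.out hR'
  have hZfix : Z.fixingSubgroup =
      K.fixingSubgroup ⊔ MulAction.stabilizer Gal(Qb/ℚ) A ⊓ B.fixingSubgroup := by
    apply fix_of_mem
    intro x
    rw [hZ x]
    exact and_congr_right fun _ => ⟨fun h b hb => h b hb.2 hb.1, fun h b hb hb2 => h b ⟨hb2, hb⟩⟩
  have hidx : ∀ (m : ℕ) (R : IntermediateField ℚ Qb), IsLayer p m R →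
      R.fixingSubgroup.index = p ^ m := fun m R hR => by
    rw [← hR.1, finrank_eq_fixingSubgroup_index Qb R]
  have hcov : ∀ B : ValuationSubring Qb, inertia B ≤ R'.fixingSubgroup ∨
      ∃ g : Gal(Qb/ℚ), B = g • A := by
    intro B
    by_cases hB : (p : Qb) ∈ B.nonunits
    · right
      obtain ⟨g, -, hg⟩ := conj_of_one hp.out ⊥ (onePrime_bot hp.out) hB hA
      exact ⟨g, hg⟩
    · exact Or.inl (inertia_le_layer hp.out hR' hB)
  have hKidx : finrank ℚ K = K.fixingSubgroup.index := finrank_eq_fixingSubgroup_index Qb K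
  have hBidx : finrank ℚ B = B.fixingSubgroup.index := finrank_eq_fixingSubgroup_index Qb B
  have hZidx : finrank ℚ Z = Z.fixingSubgroup.index := finrank_eq_fixingSubgroup_index Qb Z
  have hKRidx : finrank ℚ ↥(K ⊔ R) = (K ⊔ R).fixingSubgroup.index :=
    finrank_eq_fixingSubgroup_index Qb (K ⊔ R)
  have hKp : ¬ p ∣ K.fixingSubgroup.relIndex B.fixingSubgroup := by
    obtain ⟨n, hn, hpn⟩ := hpK
    have h3 := Subgroup.relIndex_mul_index (hKF.trans hFB)
    rw [← hKidx, ← hBidx, hn] at h3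
    rwa [Nat.eq_of_mul_eq_mul_right finrank_pos h3]
  have hq : finrank ℚ ↥(K ⊔ R) / finrank ℚ K = R.fixingSubgroup.relIndex K.fixingSubgroup := by
    have h3 := Subgroup.relIndex_mul_index
      (inf_le_left : K.fixingSubgroup ⊓ R.fixingSubgroup ≤ K.fixingSubgroup)
    rw [Subgroup.inf_relIndex_left] at h3
    rw [hKRidx, hKidx, fixingSubgroup_sup, ← h3]
    exact Nat.mul_div_cancel _ (Nat.pos_of_ne_zero (index_ne_zero' K))
  rw [hq] at hCE
  rw [← rankLe_iff, fixingSubgroup_sup] at hC ⊢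
  rw [← rankLe_iff, fixingSubgroup_sup] at hE
  refine main inertia_conj hKn hFn hBn hRn hR'n hKF hFB (fixingSubgroup_le hRR)
    (index_ne_zero' K) hKp (hidx m R hR) (hidx m' R' hR') (layer_cyclic hp.out hp2 hR') A hcov
    (Or.inr ⟨rfl, hfab.le⟩) hC hE hCE ?_
  rw [← hZfix, ← hZidx]
  rcases hT with ⟨CF, CZ, h1, h2, h3⟩ | ⟨h1, h2⟩
  · left
    rw [← rankLe_iff, fixingSubgroup_sup] at h1 h2
    exact ⟨CF, CZ, h1, h2, h3⟩
  · right
    rw [← rankLe_iff, fixingSubgroup_sup] at h2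
    exact ⟨fixingSubgroup_le h1, h2⟩

omit [FiniteDimensional ℚ K] hKg in
theorem layer_sup {m m' : ℕ} {R R' : IntermediateField ℚ Qb} (hR : IsLayer p m R)
    (hR' : IsLayer p m' R') : ∃ m'', IsLayer p m'' (R ⊔ R') := by
  have hfR := layer_fd hp.out hR
  have hfR' := layer_fd hp.out hR'
  have hRn := layer_normal hp.out hR
  have hR'n := layer_normal hp.out hR'
  have h1 : finrank ℚ (R ⊔ R' : IntermediateField ℚ Qb) =
      (R.fixingSubgroup ⊓ R'.fixingSubgroup).index := by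
    rw [← fixingSubgroup_sup]
    exact finrank_eq_fixingSubgroup_index Qb _
  have h2 : (R.fixingSubgroup ⊓ R'.fixingSubgroup).index ∣ p ^ (m + m') := by
    have h3 : (R.fixingSubgroup ⊓ R'.fixingSubgroup).index =
        R.fixingSubgroup.relIndex R'.fixingSubgroup * R'.fixingSubgroup.index := by
      rw [← Subgroup.relIndex_mul_index (inf_le_right : R.fixingSubgroup ⊓ R'.fixingSubgroup ≤ _),
        Subgroup.inf_relIndex_right]
    rw [h3, pow_add]
    refine Nat.mul_dvd_mul ?_ ?_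
    · rw [← hR.1, finrank_eq_fixingSubgroup_index Qb R]
      exact Subgroup.relIndex_dvd_index_of_normal _ _
    · rw [← hR'.1, finrank_eq_fixingSubgroup_index Qb R']
  obtain ⟨m'', -, h3⟩ := (Nat.dvd_prime_pow hp.out).1 h2
  obtain ⟨-, N, hN⟩ := hR
  obtain ⟨-, N', hN'⟩ := hR'
  have h4 : ∀ a b : ℕ, a ≤ b → adjoin ℚ {z : Qb | z ^ p ^ a = 1} ≤ adjoin ℚ {z : Qb | z ^ p ^ b = 1} := by
    intro a b hab
    apply adjoin.mono
    intro z hz
    obtain ⟨k, rfl⟩ := Nat.exists_eq_add_of_le hab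
    show z ^ p ^ (a + k) = 1
    rw [pow_add, pow_mul, show z ^ p ^ a = 1 from hz, one_pow]
  exact ⟨m'', by rw [h1, h3], max N N', sup_le (hN.trans (h4 _ _ (le_max_left _ _)))
    (hN'.trans (h4 _ _ (le_max_right _ _)))⟩

omit hKg in
/-- It suffices to consider the layers above a given one. -/
theorem mu_of_above {m : ℕ} {R : IntermediateField ℚ Qb} (hR : IsLayer p m R)
    (h : ∃ C : ℕ, ∀ (m' : ℕ) (R' : IntermediateField ℚ Qb), IsLayer p m' R' → R ≤ R' →
      DegLe p (K ⊔ R') C) : MuZero p K := by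
  obtain ⟨C, hC⟩ := h
  have hfR := layer_fd hp.out hR
  refine ⟨C * R.fixingSubgroup.index, fun m' R' hR' => ?_⟩
  have hfR' := layer_fd hp.out hR'
  obtain ⟨m'', hR''⟩ := layer_sup hR hR'
  have h0 := hC m'' _ hR'' le_sup_left
  have hRn := layer_normal hp.out hR
  rw [← rankLe_iff] at h0 ⊢
  rw [fixingSubgroup_sup, fixingSubgroup_sup] at h0
  rw [fixingSubgroup_sup]
  have h1 : (K.fixingSubgroup ⊓ (R.fixingSubgroup ⊓ R'.fixingSubgroup)).relIndex
      (K.fixingSubgroup ⊓ R'.fixingSubgroup) =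
      R.fixingSubgroup.relIndex (K.fixingSubgroup ⊓ R'.fixingSubgroup) := by
    rw [← Subgroup.inf_relIndex_right, ← Subgroup.inf_relIndex_right R.fixingSubgroup]
    congr 1
    ext x
    simp only [Subgroup.mem_inf]
    tauto
  have h2 : R.fixingSubgroup.relIndex (K.fixingSubgroup ⊓ R'.fixingSubgroup) ∣
      R.fixingSubgroup.index := Subgroup.relIndex_dvd_index_of_normal _ _
  have h3 : (K.fixingSubgroup ⊓ (R.fixingSubgroup ⊓ R'.fixingSubgroup)).relIndex
      (K.fixingSubgroup ⊓ R'.fixingSubgroup) ≠ 0 := by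
    rw [h1]
    intro h
    rw [h] at h2
    exact index_ne_zero' R (Nat.eq_zero_of_zero_dvd h2)
  refine (RankLe.of_le (inf_le_inf_left _ inf_le_right) (by
    rw [Subgroup.coe_inf, Subgroup.coe_inf]
    exact K.fixingSubgroup_isOpen.inter (R.fixingSubgroup_isOpen.inter R'.fixingSubgroup_isOpen))
    h3 h0).mono ?_
  rw [h1]
  exact Nat.mul_le_mul_left _ (Nat.le_of_dvd (Nat.pos_of_ne_zero (index_ne_zero' R)) h2)

omit hp [FiniteDimensional ℚ K] hKg in
/-- The first layer is `ℚ`. -/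
theorem layer_bot : IsLayer p 0 (⊥ : IntermediateField ℚ Qb) := by
  refine ⟨?_, 0, bot_le⟩
  rw [pow_zero]
  exact IntermediateField.finrank_bot

/-- From a layer to the base. -/
theorem degLe_base {F : IntermediateField ℚ Qb} [FiniteDimensional ℚ F] {m : ℕ}
    {R : IntermediateField ℚ Qb} (hR : IsLayer p m R) {C : ℕ} (h : DegLe p (F ⊔ R) C) :
    ∃ C₀, DegLe p F C₀ := by
  have hfR := layer_fd hp.out hR
  have hRn := layer_normal hp.out hR
  rw [← rankLe_iff, fixingSubgroup_sup] at h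
  have h3 : (F.fixingSubgroup ⊓ R.fixingSubgroup).relIndex F.fixingSubgroup ≠ 0 := by
    rw [Subgroup.inf_relIndex_left]
    intro h
    have h2 := Subgroup.relIndex_dvd_index_of_normal R.fixingSubgroup F.fixingSubgroup
    rw [h] at h2
    exact index_ne_zero' R (Nat.eq_zero_of_zero_dvd h2)
  refine ⟨_, (rankLe_iff F _).1 (RankLe.of_le inf_le_left (by
    rw [Subgroup.coe_inf]
    exact F.fixingSubgroup_isOpen.inter R.fixingSubgroup_isOpen) h3 h)⟩

/-- The real subfield. -/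
theorem bound_plus (hp2 : p ≠ 2) (hB : B ≤ abPart K)
    (hpK : ∃ n, finrank ℚ K = n * finrank ℚ B ∧ ¬ p ∣ n) {A : ValuationSubring Qb}
    (hA : (p : Qb) ∈ A.nonunits) (hZ : IsDecompositionField A B K Z) (ι : Qb →+* ℂ)
    (k : IntermediateField ℚ Qb) (hk : finrank ℚ k = 2) (hki : ¬ k ≤ realSub ι)
    (hab : ∀ σ ∈ k.fixingSubgroup, ∀ τ ∈ k.fixingSubgroup, ∀ x ∈ K, σ (τ x) = τ (σ x))
    (h1 : DegLe p (K ⊓ realSub ι) 1) {m : ℕ} {R : IntermediateField ℚ Qb} (hR : IsLayer p m R)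
    {CF T : ℕ} (hCF : DegLe p (abPart K ⊔ R) CF)
    (hT : (∃ CF CZ, DegLe p (abPart K ⊔ R) CF ∧ DegLe p (Z ⊔ R) CZ ∧
        T = CF * CZ ^ finrank ℚ Z) ∨ (Z ≤ abPart K ∧ DegLe p (abPart K ⊔ R) T)) :
    DegLe p (K ⊔ R) T := by
  classical
  have hfA : FiniteDimensional ℚ (abPart K) := fd_of_le (abPart_le K)
  have hfB : FiniteDimensional ℚ B := fd_of_le (hB.trans (abPart_le K))
  have hbot : IsGalois ℚ (⊥ : IntermediateField ℚ Qb) := isGalois_bot
  have hex := degLe_base hR hCF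
  set C₁ := Nat.find hex with hC₁
  have h2 : DegLe p (abPart K) C₁ := Nat.find_spec hex
  have h3 : C₁ ≠ 0 := fun h => not_degLe_zero (p := p) (abPart K) (h ▸ h2)
  obtain ⟨E, hE⟩ := Nat.exists_eq_succ_of_ne_zero h3
  have h4 : ¬ DegLe p (abPart K ⊔ ⊥) E := by
    rw [sup_bot_eq]
    exact Nat.find_min hex (by rw [← hC₁, hE]; exact Nat.lt_succ_self E)
  -- `p` does not divide the degree over the abelian part
  have hn : ∃ n, finrank ℚ K = n * finrank ℚ (abPart K) ∧ ¬ p ∣ n := by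
    obtain ⟨n, hn, hpn⟩ := hpK
    have hKidx : finrank ℚ K = K.fixingSubgroup.index := finrank_eq_fixingSubgroup_index Qb K
    have hBidx : finrank ℚ B = B.fixingSubgroup.index := finrank_eq_fixingSubgroup_index Qb B
    have hFidx : finrank ℚ (abPart K) = (abPart K).fixingSubgroup.index :=
      finrank_eq_fixingSubgroup_index Qb (abPart K)
    have h5 := Subgroup.relIndex_mul_index (fixingSubgroup_le (abPart_le K))
    have h6 := Subgroup.relIndex_mul_index (fixingSubgroup_le hB)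
    refine ⟨_, by rw [hKidx, hFidx]; exact h5.symm, fun hdvd => hpn ?_⟩
    have h7 : n = K.fixingSubgroup.relIndex (abPart K).fixingSubgroup *
        (abPart K).fixingSubgroup.relIndex B.fixingSubgroup := by
      apply Nat.eq_of_mul_eq_mul_right (finrank_pos (R := ℚ) (M := B))
      rw [← hn, hKidx, hBidx, mul_assoc, h6, h5]
    rw [h7]
    exact hdvd.mul_right _
  obtain ⟨n, hn, hpn⟩ := hn
  have h5 : DegLe p (K ⊔ ⊥) C₁ := by
    have h6 := thmA hp2 ι k K ⊥ bot_le hk hki hab hn hpn (C1 := 1) (C2 := C₁)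
      (by rw [sup_bot_eq]; exact h1) (by rw [sup_bot_eq]; exact h2)
    rwa [one_pow, one_mul] at h6
  have h6 := bound hp2 hB hpK hA hZ layer_bot hR bot_le h5 h4 (by
    rw [sup_bot_eq, Nat.div_self finrank_pos, hE]
    exact lt_mul_of_one_lt_left (Nat.succ_pos E) (Nat.one_lt_pow (by norm_num) hp.out.one_lt)) hT
  rwa [hE, Nat.succ_eq_add_one, Nat.div_self (Nat.succ_pos E), one_mul] at h6

omit hKg in
/-- The degrees of the layers over `K` tend to infinity. -/
theorem eventually {C : ℕ} : ∃ m₀ : ℕ, ∀ m ≥ m₀, ∀ R : IntermediateField ℚ Qb, IsLayer p m R →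
    C < p ^ (2 * (finrank ℚ ↥(K ⊔ R) / finrank ℚ K)) := by
  refine ⟨finrank ℚ K * C, fun m hm R hR => ?_⟩
  have hfR := layer_fd hp.out hR
  have h1 : C ≤ finrank ℚ ↥(K ⊔ R) / finrank ℚ K := by
    rw [Nat.le_div_iff_mul_le finrank_pos]
    have h2 : finrank ℚ R ≤ finrank ℚ ↥(K ⊔ R) :=
      IntermediateField.finrank_le_of_le_right le_sup_right
    rw [hR.1] at h2
    have h3 : m < p ^ m := Nat.lt_pow_self hp.out.one_lt
    calc C * finrank ℚ K = finrank ℚ K * C := mul_comm _ _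
      _ ≤ m := hm
      _ ≤ _ := h3.le.trans h2
  calc C < p ^ C := Nat.lt_pow_self hp.out.one_lt
    _ ≤ p ^ (2 * (finrank ℚ ↥(K ⊔ R) / finrank ℚ K)) :=
        Nat.pow_le_pow_right hp.out.pos (h1.trans (Nat.le_mul_of_pos_left _ (by norm_num)))

end

end Pool.Agent.W5h33.DF
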