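import Pool.Agent.W5h33.DF.Main

/-!
# The group-theoretical theorem in the totally ramified case
-/

set_option autoImplicit false

namespace Pool.Agent.W5h33.DF

open Subgroup Pool.Agent.Q60.MU Pool.Agent.W5h77.MB
open Pool.Agent.X310.Mu (nm nm_eq nm_of_fix nm_fix eq_one_of_cop)
open scoped commutatorElement

variable {𝔾 : Type} [Group 𝔾]

theorem mainB [TopologicalSpace 𝔾] [ContinuousMul 𝔾] {p : ℕ} [hp : Fact p.Prime]
    {Ω : Type} [MulAction 𝔾 Ω] {I : Ω → Subgroup 𝔾}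
    (hI : ∀ (g : 𝔾) (w : Ω), ∀ x ∈ I w, g * x * g⁻¹ ∈ I (g • w))
    {K F D D' : Subgroup 𝔾} (hKn : K.Normal) (hFn : F.Normal) (hDn : D.Normal)
    (hD'n : D'.Normal) (hKF : K ≤ F) (hDD : D' ≤ D) (hK0 : K.index ≠ 0)
    (hKp : ¬ p ∣ K.relIndex F) {m m' : ℕ} (hDi : D.index = p ^ m)
    (hD'i : D'.index = p ^ m') (hσ : ∃ σ : 𝔾, ∀ τ, ∃ i : ℤ, τ * (σ ^ i)⁻¹ ∈ D')
    {c : ℕ} (htot : ∀ A, I A ≤ D' ∨ ∀ τ ∈ K, ∃ ι ∈ I A ⊓ K, τ ^ p ^ c * ι⁻¹ ∈ D') {δ : ℕ}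
    (hδ : δ = 1 ∨ (δ = 2 ∧ F ≤ K ⊔ commutator 𝔾))
    {C E T : ℕ} (hC : RankLe p I (K ⊓ D) C) (hE : ¬ RankLe p I (F ⊓ D) E)
    (hCE : C < p ^ (δ * (D.relIndex K - p ^ c)) * (E + 1))
    (hT : RankLe p I (F ⊓ D') T) :
    RankLe p I (K ⊓ D') (C / (E + 1) * T) := by
  classical
  intro Y hYH hYo hYf hg
  have hD'0 : D'.index ≠ 0 := by
    rw [hD'i]
    exact (pow_pos hp.out.pos m').ne'
  have hrel : ∀ L : Subgroup 𝔾, L ≤ F → K.relIndex L ∣ K.relIndex F := by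
    intro L hL
    have h4 : (K.subgroupOf F).Normal := hKn.subgroupOf F
    have h5 := relIndex_dvd_index_of_normal (K.subgroupOf F) (L.subgroupOf F)
    rw [relIndex_subgroupOf hL] at h5
    exact h5
  set 𝒦' : Subgroup 𝔾 := K ⊓ D' with h𝒦'def
  have h𝒦'n : 𝒦'.Normal := normal_inf_normal K D'
  have h𝒦'0 : 𝒦'.index ≠ 0 := index_inf_ne_zero hK0 hD'0
  obtain ⟨Q, hQY, hQo, hQf, hgQ, hQn⟩ := exists_core hI (K := 𝒦') (D := ⊤)
    (fun d _ x hx => h𝒦'n.conj_mem x hx d) (by rwa [relIndex_top_right]) hYH hYo hYf hg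
  have hQK := hQY.trans hYH
  have hQnorm : Q.Normal := ⟨fun x hx g => hQn g trivial x hx⟩
  refine (relIndex_le_of_le_left hQY hQf).trans ?_
  rw [← card_VV 𝒦' Q]
  have hfin : Finite (VV 𝒦' Q) := by
    apply Nat.finite_of_card_ne_zero
    rw [card_VV]
    exact hQf
  have hcomm : ∀ u v : VV 𝒦' Q, u * v = v * u := by
    intro u v
    obtain ⟨x, rfl⟩ := th_surj 𝒦' Q u
    obtain ⟨y, rfl⟩ := th_surj 𝒦' Q v
    have h3 : th 𝒦' Q ⁅x, y⁆ = 1 := by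
      rw [th_eq_one]
      exact hgQ (Or.inl (Or.inr ⟨x, x.2, y, y.2, rfl⟩))
    rw [map_commutatorElement, commutatorElement_eq_one_iff_mul_comm] at h3
    exact h3
  have hpow : ∀ v : VV 𝒦' Q, v ^ p = 1 := by
    intro v
    obtain ⟨x, rfl⟩ := th_surj 𝒦' Q v
    rw [← map_pow, th_eq_one]
    exact hgQ (Or.inl (Or.inl ⟨x, x.2, rfl⟩))
  let _ : CommGroup (VV 𝒦' Q) := { (inferInstance : Group (VV 𝒦' Q)) with mul_comm := hcomm }
  have htriv : ∀ x ∈ 𝒦', act 𝒦' Q x = 1 := by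
    intro x hx
    ext1 v
    obtain ⟨y, rfl⟩ := th_surj 𝒦' Q v
    rw [act_th, MulAut.one_apply]
    have h3 : (⟨x * y * x⁻¹, h𝒦'n.conj_mem y y.2 x⟩ : 𝒦') = ⟨x, hx⟩ * y * ⟨x, hx⟩⁻¹ := rfl
    rw [h3, map_mul, map_mul, map_inv, hcomm (th 𝒦' Q ⟨x, hx⟩), mul_assoc, mul_inv_cancel, mul_one]
  -- subgroups of `D'` act through groups of order prime to `p`
  have hpL : ∀ L : Subgroup 𝔾, L ≤ F ⊓ D' → ¬ p ∣ 𝒦'.relIndex L := by
    intro L hL h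
    rw [h𝒦'def, rel_inf (hL.trans inf_le_right)] at h
    exact hKp (h.trans (hrel L (hL.trans inf_le_left)))
  have hpD : ∀ L : Subgroup 𝔾, L ≤ F ⊓ D' → ¬ p ∣ Nat.card (L.map (act 𝒦' Q)) := by
    intro L hL h
    apply hpL L hL
    refine h.trans ?_
    have h3 : L.map (act 𝒦' Q) = ((act 𝒦' Q).comp L.subtype).range := by
      ext δ
      constructor
      · rintro ⟨l, hl, rfl⟩
        exact ⟨⟨l, hl⟩, rfl⟩
      · rintro ⟨l, rfl⟩
        exact ⟨l, l.2, rfl⟩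
    rw [h3, ← index_ker]
    show _ ∣ (𝒦'.subgroupOf L).index
    apply index_dvd_of_le
    intro x hx
    exact htriv _ hx
  -- the fixed elements
  set DF : Subgroup (MulAut (VV 𝒦' Q)) := (F ⊓ D').map (act 𝒦' Q) with hDF
  have hF'B : F ⊓ D' ≤ F ⊓ D' := le_rfl
  have hbd : ∀ L : Subgroup 𝔾, 𝒦' ≤ L → L ≤ F ⊓ D' → ∀ c, RankLe p I L c →
      Nat.card (fixS (L.map (act 𝒦' Q))) ≤ c := by
    intro L hL1 hL2 c hc
    refine (card_fix_le hp.out hpow (L.map (act 𝒦' Q)) (hpD L hL2) (fixS (L.map (act 𝒦' Q)))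
      fun v hv δ hδ => hv δ hδ).trans ?_
    refine step 𝒦' Q (S := (nu (L.map (act 𝒦' Q))).ker) hL1 (hpL L hL2) hQK hQo hQf hgQ ?_ hc
    intro l hl v
    rw [MonoidHom.mem_ker, map_mul, map_inv, nu_act (L.map (act 𝒦' Q)) ⟨l, hl, rfl⟩,
      mul_inv_cancel]
  have hstab : ∀ (g : 𝔾) (L : Subgroup 𝔾), (∀ l ∈ L, g⁻¹ * l * g ∈ L) →
      ∀ v ∈ fixS (L.map (act 𝒦' Q)), act 𝒦' Q g v ∈ fixS (L.map (act 𝒦' Q)) := by
    rintro g L hgL v hv _ ⟨l, hl, rfl⟩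
    have h1 : l * g = g * (g⁻¹ * l * g) := by group
    rw [← MulAut.mul_apply, ← map_mul, h1, map_mul, MulAut.mul_apply, hv _ ⟨_, hgL l hl, rfl⟩]
  have hFstab : ∀ g : 𝔾, ∀ v ∈ fixS DF, act 𝒦' Q g v ∈ fixS DF := by
    intro g
    apply hstab
    rintro l ⟨hl1, hl2⟩
    have h1 := hFn.conj_mem l hl1 g⁻¹
    have h2 := hD'n.conj_mem l hl2 g⁻¹
    rw [inv_inv] at h1 h2
    exact ⟨h1, h2⟩
  set U : Subgroup (VV 𝒦' Q) := fixS DF with hU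
  have hcardU : Nat.card U ≤ T := hbd (F ⊓ D') (inf_le_inf_right _ hKF) hF'B T hT
  have hUstab : ∀ g : 𝔾, ∀ v ∈ U, act 𝒦' Q g v ∈ U := hFstab
  -- the filtration
  obtain ⟨γ, hγK, hγ⟩ := exists_gamma (K := K) hσ
  obtain ⟨e₀, -, he₀⟩ : ∃ a ≤ m, D.relIndex K = p ^ a :=
    (Nat.dvd_prime_pow hp.out).1 (hDi ▸ relIndex_dvd_index_of_normal D K)
  have hcm := comm_mem_of hσ
  let φ : VV 𝒦' Q →* VV 𝒦' Q :=
    { toFun := fun v => act 𝒦' Q γ v * v⁻¹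
      map_one' := by rw [map_one, inv_one, mul_one]
      map_mul' := fun u v => by rw [map_mul, mul_inv, mul_mul_mul_comm] }
  have hφ : ∀ v, φ v = act 𝒦' Q γ v * v⁻¹ := fun _ => rfl
  have hφc : ∀ (h : 𝔾) (v : VV 𝒦' Q), act 𝒦' Q h (φ v) = φ (act 𝒦' Q h v) := by
    intro h v
    have h1 : ⁅h, γ⁆ ∈ 𝒦' := by
      refine ⟨?_, hcm h γ⟩
      rw [commutatorElement_def]
      exact K.mul_mem (hKn.conj_mem γ hγK h) (K.inv_mem hγK)
    have h2 : h * γ = ⁅h, γ⁆ * (γ * h) := by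
      rw [commutatorElement_def]
      group
    rw [hφ, hφ, map_mul, map_inv, ← MulAut.mul_apply, ← map_mul, h2, map_mul, htriv _ h1, one_mul,
      map_mul, MulAut.mul_apply]
  have hUφ : ∀ u ∈ U, φ u ∈ U := fun u hu => U.mul_mem (hUstab γ u hu) (U.inv_mem hu)
  have hfrob : ∀ (b : ℕ) (v : VV 𝒦' Q), φ^[p ^ b] v = act 𝒦' Q (γ ^ p ^ b) v * v⁻¹ := by
    intro b v
    rw [frob hpow (act 𝒦' Q γ) φ hφ b v, map_pow]
  have hN : ∀ v, φ^[p ^ m'] v = 1 := by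
    intro v
    have h1 : γ ^ p ^ m' ∈ 𝒦' := by
      refine ⟨K.pow_mem hγK _, ?_⟩
      rw [← hD'i]
      exact D'.pow_index_mem γ
    rw [hfrob, htriv _ h1, MulAut.one_apply, mul_inv_cancel]
  set S : Subgroup (VV 𝒦' Q) := fil U φ (p ^ e₀ - p ^ c) with hS
  have hSstab : ∀ g : 𝔾, ∀ v ∈ S, act 𝒦' Q g v ∈ S := fun g =>
    fil_stable (hUstab g) (hφc g) _
  have hUS : U ≤ S := le_fil U φ _
  set W' : Subgroup 𝔾 := pre 𝒦' Q S with hW'
  have hQW : Q ≤ W' := le_pre 𝒦' Q hQK S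
  have hWK : W' ≤ 𝒦' := pre_le 𝒦' Q S
  have hmemW : ∀ (x : 𝔾) (hx : x ∈ 𝒦'), x ∈ W' ↔ th 𝒦' Q ⟨x, hx⟩ ∈ S := fun x hx =>
    mem_pre 𝒦' Q S ⟨x, hx⟩
  have hW'n : W'.Normal := by
    refine ⟨fun x hx g => ?_⟩
    have hx' := hWK hx
    rw [hmemW _ (h𝒦'n.conj_mem x hx' g)]
    have h1 := hSstab g _ ((hmemW x hx').1 hx)
    rw [act_th] at h1
    exact h1
  have hactc : ∀ (g x : 𝔾) (hx : x ∈ 𝒦') (h : ⁅g, x⁆ ∈ 𝒦'),
      act 𝒦' Q g (th 𝒦' Q ⟨x, hx⟩) * (th 𝒦' Q ⟨x, hx⟩)⁻¹ = th 𝒦' Q ⟨⁅g, x⁆, h⟩ := by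
    intro g x hx h
    rw [act_th, ← map_inv, ← map_mul]
    rfl
  have hcK : ∀ (g x : 𝔾), x ∈ 𝒦' → ⁅g, x⁆ ∈ 𝒦' := by
    intro g x hx
    rw [commutatorElement_def]
    exact 𝒦'.mul_mem (h𝒦'n.conj_mem x hx g) (𝒦'.inv_mem hx)
  have hfs : ∀ (j : ℕ) (g : 𝔾), ∀ v ∈ fil U φ j, act 𝒦' Q g v ∈ fil U φ j := fun j g =>
    fil_stable (hUstab g) (hφc g) j
  set 𝒦 : Subgroup 𝔾 := K ⊓ D with h𝒦def
  have h𝒦n : 𝒦.Normal := normal_inf_normal K D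
  have hKK : 𝒦' ≤ 𝒦 := inf_le_inf_left K hDD
  have hγ1 : γ ^ p ^ e₀ ∈ 𝒦 := by
    refine ⟨K.pow_mem hγK _, ?_⟩
    have h1 : (⟨γ, hγK⟩ : K) ^ (D.subgroupOf K).index ∈ D.subgroupOf K :=
      (D.subgroupOf K).pow_index_mem _
    have h2 : (D.subgroupOf K).index = p ^ e₀ := he₀
    rw [h2] at h1
    exact h1
  have hdec : ∀ x ∈ 𝒦, ∃ k ∈ 𝒦', ∃ j : ℤ, x = k * (γ ^ p ^ e₀) ^ j := by
    rintro x ⟨hxK, hxD⟩
    obtain ⟨j, hj⟩ := mod_gamma hDD hγK hγ hxK hxD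
    rw [he₀] at hj
    refine ⟨x * ((γ ^ p ^ e₀) ^ j)⁻¹, ⟨?_, hj⟩, j, by rw [inv_mul_cancel_right]⟩
    exact K.mul_mem hxK (K.inv_mem (K.zpow_mem hγ1.1 j))
  have hKA : ∀ x ∈ 𝒦, ∀ v : VV 𝒦' Q, act 𝒦' Q x v * v⁻¹ ∈ S := by
    intro x hx
    obtain ⟨k, hk, j, rfl⟩ := hdec x hx
    let A₀ := actSub (act 𝒦' Q) ⊤ S (fun _ _ _ => mem_top _)
    have h1 : k ∈ A₀ := by
      intro v _
      rw [htriv k hk, MulAut.one_apply, mul_inv_cancel]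
      exact S.one_mem
    have h2 : γ ^ p ^ e₀ ∈ A₀ := by
      intro v _
      rw [← hfrob]
      exact antitone_nat_of_succ_le (fil_anti U φ) (Nat.sub_le _ _) (iter_mem U φ _ v)
    exact fun v => A₀.mul_mem h1 (A₀.zpow_mem h2 j) v (mem_top v)
  have hab1 : ∀ a ∈ 𝒦, ∀ b ∈ 𝒦', ⁅a, b⁆ ∈ W' := by
    intro a ha b hb
    rw [hmemW _ (hcK a b hb), ← hactc a b hb]
    exact hKA a ha _
  have hC1 : ∀ a b : 𝔾, ⁅a, b⁆ ∈ W' ↔ Commute (a : 𝔾 ⧸ W') (b : 𝔾 ⧸ W') := by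
    intro a b
    rw [← QuotientGroup.eq_one_iff]
    show QuotientGroup.mk' W' ⁅a, b⁆ = 1 ↔ _
    rw [map_commutatorElement, commutatorElement_eq_one_iff_commute]
    rfl
  have hab2 : ∀ a ∈ 𝒦, Commute (a : 𝔾 ⧸ W') ((γ ^ p ^ e₀ : 𝔾) : 𝔾 ⧸ W') := by
    intro a ha
    obtain ⟨k, hk, j, rfl⟩ := hdec a ha
    rw [QuotientGroup.mk_mul, QuotientGroup.mk_zpow]
    exact ((hC1 _ _).1 (hab1 _ hγ1 k hk)).symm.mul_left ((Commute.refl _).zpow_left j)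
  have hab : ∀ a ∈ 𝒦, ∀ b ∈ 𝒦, ⁅a, b⁆ ∈ W' := by
    intro a ha b hb
    rw [hC1]
    obtain ⟨k, hk, j, rfl⟩ := hdec b hb
    rw [QuotientGroup.mk_mul, QuotientGroup.mk_zpow]
    exact ((hC1 _ _).1 (hab1 a ha k hk)).mul_right ((hab2 a ha).zpow_right j)
  -- the lower bound for `F`
  have hM : ∃ M : Subgroup 𝔾, M ≤ F ⊓ D ∧ IsOpen (M : Set 𝔾) ∧ M.relIndex (F ⊓ D) ≠ 0 ∧
      gens p I (F ⊓ D) ⊆ M ∧ E < M.relIndex (F ⊓ D) := by
    by_contra hcon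
    apply hE
    intro M h1 h2 h3 h4
    by_contra h5
    exact hcon ⟨M, h1, h2, h3, h4, not_le.1 h5⟩
  obtain ⟨M, hM1, hM2, hM3, hM4, hM5⟩ := hM
  have hSnofix : ∀ L : Subgroup 𝔾, L ≤ F ⊓ D' → fixS (L.map (act 𝒦' Q)) ≤ S →
      ∀ x ∈ 𝒦', (∀ z ∈ L, ⁅z, x⁆ ∈ W') → x ∈ W' := by
    intro L hL hLS x hx h
    rw [hmemW x hx]
    refine nofix hp.out (L.map (act 𝒦' Q)) (hpD L hL) S (fun v hv => hLS hv) (hpow _) ?_
    rintro _ ⟨z, hz, rfl⟩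
    rw [hactc z x hx (hcK z x hx), ← hmemW]
    exact h z hz
  have hkey := key (p := p) (I := I) 𝒦 𝒦' (F ⊓ D') (F ⊓ D') W' (F ⊓ D) (F ⊓ D') M
    (normal_inf_normal F D') hKK le_rfl (inf_le_inf_right _ hKF) (inf_le_inf_left _ hDD) le_rfl
    (by
      intro h
      rw [h𝒦def, rel_inf inf_le_right] at h
      exact hKp (h.trans (hrel _ inf_le_left)))
    hM2 hM3 hM4 hWK (Subgroup.isOpen_mono hQW hQo)
    (by
      rw [← relIndex_mul_relIndex W' 𝒦' 𝒦 hWK hKK]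
      refine mul_ne_zero ?_ ?_
      · rw [hW', pre_relIndex]
        exact S.index_ne_zero_of_finite
      · intro h
        have h1 := relIndex_dvd_index_of_normal 𝒦' 𝒦
        rw [h] at h1
        exact h𝒦'0 (Nat.eq_zero_of_zero_dvd h1))
    (fun x hx => hQW (hgQ (Or.inl (Or.inl ⟨x, hx, rfl⟩)))) hab
    (by
      rintro r hr a ⟨haK, haD⟩
      refine ⟨?_, hcm r a⟩
      rw [commutatorElement_def]
      exact K.mul_mem (hKn.conj_mem a haK r) (K.inv_mem haK))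
    (hpL _ le_rfl)
    (hSnofix (F ⊓ D') hF'B hUS)
    (hSnofix (F ⊓ D') hF'B hUS)
    (by
      intro x hx A hA
      rcases htot A with h | h
      · left
        exact hQW (hgQ (Or.inr ⟨⟨hx.1, h hA⟩, A, hA⟩))
      · right
        refine ⟨1, fun z hz => ?_⟩
        rw [inv_one, one_mul, mul_one]
        have hzx : ⁅z, x⁆ ∈ 𝒦' := by
          refine ⟨?_, hcm z x⟩
          rw [commutatorElement_def]
          exact K.mul_mem (hKn.conj_mem x hx.1 z) (K.inv_mem hx.1)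
        rcases lt_or_ge e₀ c with hlt | hge
        · rw [hmemW _ hzx, hS, Nat.sub_eq_zero_of_le (Nat.pow_le_pow_right hp.out.pos hlt.le)]
          exact mem_top _
        obtain ⟨ι, ⟨hιI, hιK⟩, hι⟩ := h γ hγK
        have hγι : γ ^ p ^ c * ι⁻¹ ∈ 𝒦' := ⟨K.mul_mem (K.pow_mem hγK _) (K.inv_mem hιK), hι⟩
        have hact : act 𝒦' Q ι = act 𝒦' Q (γ ^ p ^ c) := by
          have h1 : γ ^ p ^ c = (γ ^ p ^ c * ι⁻¹) * ι := by group
          rw [h1, map_mul (act 𝒦' Q) (γ ^ p ^ c * ι⁻¹) ι, htriv _ hγι, one_mul]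
        obtain ⟨k, hk, j, hxk⟩ := hdec x hx
        have hpp : p ^ e₀ = p ^ c * p ^ (e₀ - c) := by rw [← pow_add, Nat.add_sub_cancel' hge]
        have hy2 : x * ((ι ^ p ^ (e₀ - c)) ^ j)⁻¹ ∈ D' := by
          have h1 : (γ : 𝔾 ⧸ D') ^ p ^ c = (ι : 𝔾 ⧸ D') := by
            rw [← mul_inv_eq_one, ← QuotientGroup.mk_pow, ← QuotientGroup.mk_inv,
              ← QuotientGroup.mk_mul, QuotientGroup.eq_one_iff]
            exact hι
          rw [← QuotientGroup.eq_one_iff, QuotientGroup.mk_mul, QuotientGroup.mk_inv,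
            QuotientGroup.mk_zpow, QuotientGroup.mk_pow, hxk, QuotientGroup.mk_mul,
            QuotientGroup.mk_zpow, QuotientGroup.mk_pow, (QuotientGroup.eq_one_iff k).2 hk.2,
            one_mul, hpp, pow_mul, h1, mul_inv_cancel]
        have hy : x * ((ι ^ p ^ (e₀ - c)) ^ j)⁻¹ ∈ 𝒦' :=
          ⟨K.mul_mem hx.1 (K.inv_mem (K.zpow_mem (K.pow_mem hιK _) j)), hy2⟩
        have hyW : x * ((ι ^ p ^ (e₀ - c)) ^ j)⁻¹ ∈ W' := by
          apply hQW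
          exact hgQ (Or.inr ⟨hy, A, (I A).mul_mem hA
            ((I A).inv_mem ((I A).zpow_mem ((I A).pow_mem hιI _) j))⟩)
        have hu : ⁅z, ι⁆ ∈ 𝒦' := by
          refine ⟨?_, hcm z ι⟩
          rw [commutatorElement_def]
          exact K.mul_mem (hKn.conj_mem ι hιK z) (K.inv_mem hιK)
        have htele : ∀ n : ℕ, ∃ hn : ⁅z, ι ^ n⁆ ∈ 𝒦', th 𝒦' Q ⟨⁅z, ι ^ n⁆, hn⟩ =
            ∏ i ∈ Finset.range n, ((act 𝒦' Q ι) ^ i) (th 𝒦' Q ⟨⁅z, ι⁆, hu⟩) := by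
          intro n
          induction n with
          | zero =>
            have h1 : ⁅z, ι ^ 0⁆ = 1 := by
              rw [pow_zero, commutatorElement_def]
              group
            refine ⟨by rw [h1]; exact 𝒦'.one_mem, ?_⟩
            rw [Finset.prod_range_zero, th_eq_one]
            show ⁅z, ι ^ 0⁆ ∈ Q
            rw [h1]
            exact Q.one_mem
          | succ n ih =>
            obtain ⟨hn, hn2⟩ := ih
            have h1 : ⁅z, ι ^ (n + 1)⁆ = ⁅z, ι ^ n⁆ * (ι ^ n * ⁅z, ι⁆ * (ι ^ n)⁻¹) := by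
              rw [commutatorElement_def, commutatorElement_def, commutatorElement_def, pow_succ]
              group
            have h2 := h𝒦'n.conj_mem _ hu (ι ^ n)
            refine ⟨by rw [h1]; exact 𝒦'.mul_mem hn h2, ?_⟩
            have h3 : (⟨⁅z, ι ^ (n + 1)⁆, by rw [h1]; exact 𝒦'.mul_mem hn h2⟩ : 𝒦') =
                ⟨⁅z, ι ^ n⁆, hn⟩ * ⟨ι ^ n * ⁅z, ι⁆ * (ι ^ n)⁻¹, h2⟩ := Subtype.ext h1
            rw [h3, map_mul, hn2, Finset.prod_range_succ, ← map_pow (act 𝒦' Q) ι n, act_th]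
        let φ' : VV 𝒦' Q →* VV 𝒦' Q :=
          { toFun := fun v => act 𝒦' Q ι v * v⁻¹
            map_one' := by rw [map_one, inv_one, mul_one]
            map_mul' := fun u v => by rw [map_mul, mul_inv, mul_mul_mul_comm] }
        have hφ' : (φ' : VV 𝒦' Q → VV 𝒦' Q) = φ^[p ^ c] := by
          funext v
          rw [hfrob]
          show act 𝒦' Q ι v * v⁻¹ = _
          rw [hact]
        obtain ⟨hn, hn2⟩ := htele (p ^ (e₀ - c))
        have hcW : ⁅z, ι ^ p ^ (e₀ - c)⁆ ∈ W' := by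
          rw [hmemW _ hn, hn2, ← norm_frob hpow (act 𝒦' Q ι) φ' (fun _ => rfl), hφ',
            ← Function.iterate_mul, Nat.mul_sub, mul_one, ← hpp]
          exact iter_mem U φ _ _
        rw [hC1] at hcW ⊢
        have h2 : (x : 𝔾 ⧸ W') = ((ι ^ p ^ (e₀ - c) : 𝔾) : 𝔾 ⧸ W') ^ j := by
          rw [← QuotientGroup.mk_zpow, ← mul_inv_eq_one, ← QuotientGroup.mk_inv,
            ← QuotientGroup.mk_mul, QuotientGroup.eq_one_iff]
          exact hyW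
        rw [h2]
        exact hcW.zpow_right j)
    hC
  rw [hW', pre_relIndex] at hkey
  have hkey2 : S.index * (E + 1) ≤ C := (Nat.mul_le_mul_left _ hM5).trans hkey
  have hdim : ∀ j, ∀ n, n ≠ 0 → (fil U φ (j + 1)).relIndex (fil U φ j) = p ^ n → δ ≤ n := by
    intro j n hn0 hn
    rcases hδ with rfl | ⟨rfl, hFc⟩
    · exact Nat.one_le_iff_ne_zero.2 hn0
    · by_contra hlt
      have hn1 : n = 1 := by omega
      rw [hn1, pow_one] at hn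
      have h1 := comm_act (act 𝒦' Q) (hfs j) (hfs (j + 1)) hp.out hn
      have h2 : fil U φ j ≤ fil U φ (j + 1) := by
        intro v hv
        refine nofix hp.out DF (hpD _ hF'B) (fil U φ (j + 1))
          (fun v hv => le_fil U φ (j + 1) hv) (hpow v) ?_
        rintro _ ⟨l, ⟨hl, -⟩, rfl⟩
        have h3 : K ≤ actSub (act 𝒦' Q) (fil U φ j) (fil U φ (j + 1)) (hfs j) := by
          intro k hk
          obtain ⟨i, hi⟩ := hγ k hk
          have h4 : k = (k * (γ ^ i)⁻¹) * γ ^ i := by group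
          rw [h4]
          refine mul_mem ?_ (zpow_mem ?_ i)
          · intro u hu
            rw [htriv _ ⟨K.mul_mem hk (K.inv_mem (K.zpow_mem hγK i)), hi⟩, MulAut.one_apply,
              mul_inv_cancel]
            exact one_mem _
          · intro u hu
            exact mem_sup_right (mem_map_of_mem φ hu)
        exact (hFc.trans (sup_le h3 h1)) hl v hv
      have h3 : (fil U φ (j + 1)).relIndex (fil U φ j) = 1 := relIndex_eq_one.2 h2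
      rw [h3] at hn
      exact hp.out.one_lt.ne hn
  rcases chain hpow hUφ hN hdim (p ^ e₀ - p ^ c) with h | h
  · have h1 : S.index ≤ C / (E + 1) := (Nat.le_div_iff_mul_le (Nat.succ_pos E)).2 hkey2
    rw [← U.card_mul_index, mul_comm]
    refine Nat.mul_le_mul ?_ hcardU
    rw [← h]
    exact h1
  · exfalso
    have h1 : p ^ (δ * (p ^ e₀ - p ^ c)) * (E + 1) ≤ C := (Nat.mul_le_mul_right _ h).trans hkey2
    rw [he₀] at hCE
    exact absurd hCE (not_lt.2 h1)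

end Pool.Agent.W5h33.DF
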