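import Pool.Agent.W5h33.DF.Tot
import Pool.Agent.W5h33.DF.MainB

/-!
# The criterion for number fields
-/

set_option autoImplicit false

namespace Pool.Agent.W5h33.DF

open IntermediateField Module Pool.Agent.Q60.MU Pool.Agent.W5h77.MB
open scoped Pointwise commutatorElement

section
variable {p : ℕ} [hp : Fact p.Prime] {K : IntermediateField ℚ Qb} [FiniteDimensional ℚ K]
  [hKg : IsGalois ℚ K]

theorem boundB (hp2 : p ≠ 2) (hpK : ∃ n, finrank ℚ K = n * finrank ℚ (abPart K) ∧ ¬ p ∣ n)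
    {m m' : ℕ} {R R' : IntermediateField ℚ Qb} (hR : IsLayer p m R) (hR' : IsLayer p m' R')
    (hRR : R ≤ R')
    {C E T : ℕ} (hC : DegLe p (K ⊔ R) C) (hE : ¬ DegLe p (abPart K ⊔ R) E)
    (hCE : C < p ^ (2 * (finrank ℚ ↥(K ⊔ R) / finrank ℚ K -
      p ^ (finrank ℚ K).factorization p)) * (E + 1))
    (hT : DegLe p (abPart K ⊔ R') T) : DegLe p (K ⊔ R') (C / (E + 1) * T) := by
  have hfR := layer_fd hp.out hR
  have hfR' := layer_fd hp.out hR'
  have hfA : FiniteDimensional ℚ (abPart K) := fd_of_le (abPart_le K)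
  have hKn : K.fixingSubgroup.Normal := (InfiniteGalois.normal_iff_isGalois K).2 hKg
  have hfab := fix_abPart K
  have hcA : commutator Gal(Qb/ℚ) ≤ (abPart K).fixingSubgroup := by
    rw [hfab]
    exact le_sup_right
  have hFn : (abPart K).fixingSubgroup.Normal := normal_of_comm hcA
  have hKF : K.fixingSubgroup ≤ (abPart K).fixingSubgroup := fixingSubgroup_le (abPart_le K)
  have hRn := layer_normal hp.out hR
  have hR'n := layer_normal hp.out hR'
  have hidx : ∀ (m : ℕ) (R : IntermediateField ℚ Qb), IsLayer p m R →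
      R.fixingSubgroup.index = p ^ m := fun m R hR => by
    rw [← hR.1, finrank_eq_fixingSubgroup_index Qb R]
  have htot' : ∀ B : ValuationSubring Qb, inertia B ≤ R'.fixingSubgroup ∨
      ∀ τ ∈ K.fixingSubgroup, ∃ ι ∈ inertia B ⊓ K.fixingSubgroup,
        τ ^ p ^ (finrank ℚ K).factorization p * ι⁻¹ ∈ R'.fixingSubgroup := by
    intro B
    by_cases hB : (p : Qb) ∈ B.nonunits
    · exact Or.inr fun τ _ => tot_pow hp.out hR' hB τ
    · exact Or.inl (inertia_le_layer hp.out hR' hB)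
  have hKidx : finrank ℚ K = K.fixingSubgroup.index := finrank_eq_fixingSubgroup_index Qb K
  have hBidx : finrank ℚ (abPart K) = (abPart K).fixingSubgroup.index :=
    finrank_eq_fixingSubgroup_index Qb (abPart K)
  have hKRidx : finrank ℚ ↥(K ⊔ R) = (K ⊔ R).fixingSubgroup.index :=
    finrank_eq_fixingSubgroup_index Qb (K ⊔ R)
  have hKp : ¬ p ∣ K.fixingSubgroup.relIndex (abPart K).fixingSubgroup := by
    obtain ⟨n, hn, hpn⟩ := hpK
    have h3 := Subgroup.relIndex_mul_index hKF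
    rw [← hKidx, ← hBidx, hn] at h3
    rwa [Nat.eq_of_mul_eq_mul_right finrank_pos h3]
  have hq : finrank ℚ ↥(K ⊔ R) / finrank ℚ K = R.fixingSubgroup.relIndex K.fixingSubgroup := by
    have h3 := Subgroup.relIndex_mul_index
      (inf_le_left : K.fixingSubgroup ⊓ R.fixingSubgroup ≤ K.fixingSubgroup)
    rw [Subgroup.inf_relIndex_left] at h3
    rw [hKRidx, hKidx, fixingSubgroup_sup, ← h3]
    exact Nat.mul_div_cancel _ (Nat.pos_of_ne_zero (index_ne_zero' K))
  rw [hq] at hCE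
  rw [← rankLe_iff, fixingSubgroup_sup] at hC hT ⊢
  rw [← rankLe_iff, fixingSubgroup_sup] at hE
  exact mainB inertia_conj hKn hFn hRn hR'n hKF (fixingSubgroup_le hRR)
    (index_ne_zero' K) hKp (hidx m R hR) (hidx m' R' hR') (layer_cyclic hp.out hp2 hR') htot'
    (Or.inr ⟨rfl, hfab.le⟩) hC hE hCE hT

omit hKg in
/-- The degrees of the layers over `K` tend to infinity. -/
theorem eventuallyB (C P : ℕ) : ∃ m₀ : ℕ, ∀ m ≥ m₀, ∀ R : IntermediateField ℚ Qb, IsLayer p m R →
    C < p ^ (2 * (finrank ℚ ↥(K ⊔ R) / finrank ℚ K - P)) := by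
  refine ⟨finrank ℚ K * (C + P), fun m hm R hR => ?_⟩
  have hfR := layer_fd hp.out hR
  have h1 : C + P ≤ finrank ℚ ↥(K ⊔ R) / finrank ℚ K := by
    rw [Nat.le_div_iff_mul_le finrank_pos]
    have h2 : finrank ℚ R ≤ finrank ℚ ↥(K ⊔ R) :=
      IntermediateField.finrank_le_of_le_right le_sup_right
    rw [hR.1] at h2
    have h3 : m < p ^ m := Nat.lt_pow_self hp.out.one_lt
    calc (C + P) * finrank ℚ K = finrank ℚ K * (C + P) := mul_comm _ _
      _ ≤ m := hm
      _ ≤ _ := h3.le.trans h2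
  have h4 : C ≤ finrank ℚ ↥(K ⊔ R) / finrank ℚ K - P := Nat.le_sub_of_add_le h1
  calc C < p ^ C := Nat.lt_pow_self hp.out.one_lt
    _ ≤ p ^ (2 * (finrank ℚ ↥(K ⊔ R) / finrank ℚ K - P)) :=
        Nat.pow_le_pow_right hp.out.pos (h4.trans (Nat.le_mul_of_pos_left _ (by norm_num)))

end

end Pool.Agent.W5h33.DF
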