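import Pool.Agent.W5h77.MB.Mu

/-!
# Elements of a valuation ring as fractions of algebraic integers
-/

set_option autoImplicit false

namespace Pool.Agent.W5h33.DF

open IntermediateField Module Pool.Agent.Q60.MU Pool.Agent.W5h77.MB

open NumberField in
/-- An element of a valuation ring of the algebraic numbers above `p` is a fraction of algebraic
integers whose denominator is a unit. -/
theorem exists_frac {p : ℕ} (hp : p.Prime) {A : ValuationSubring Qb} (hA : (p : Qb) ∈ A.nonunits)
    {x : Qb} (hx : x ∈ A) :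
    ∃ a s : Qb, IsIntegral ℤ a ∧ IsIntegral ℤ s ∧ s ∉ A.nonunits ∧ x * s = a := by
  have hxa : IsIntegral ℚ x := ((AlgebraicClosure.isAlgebraic ℚ).isAlgebraic x).isIntegral
  obtain ⟨M, hfd, hxM⟩ : ∃ M : IntermediateField ℚ Qb, FiniteDimensional ℚ M ∧ x ∈ M :=
    ⟨ℚ⟮x⟯, adjoin.finiteDimensional hxa, mem_adjoin_simple_self ℚ x⟩
  have hnf : NumberField M := ⟨⟩
  have hint : ∀ (a : 𝓞 M), algebraMap (𝓞 M) M a ∈ A.comap (algebraMap M Qb) := by
    intro a
    rw [ValuationSubring.mem_comap]
    apply integral_mem A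
    exact (RingOfIntegers.isIntegral_coe a).map ((algebraMap M Qb).toIntAlgHom)
  have hne : A.comap (algebraMap M Qb) ≠ ⊤ := by
    intro htop
    have h2 : ((p : M))⁻¹ ∈ A.comap (algebraMap M Qb) := by rw [htop]; trivial
    rw [ValuationSubring.mem_comap, map_inv₀, map_natCast] at h2
    rw [ValuationSubring.mem_nonunits_iff_or] at hA
    rcases hA with h3 | h3
    · exact hp.ne_zero (by exact_mod_cast h3)
    · exact h3 h2
  obtain ⟨a, b, hb, hab⟩ := (Pool.Agent.H639R3.mem_iff_of_cent (A := 𝓞 M)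
    (A.comap (algebraMap M Qb)) hint hne ⟨x, hxM⟩).1 (by
      rw [ValuationSubring.mem_comap]
      exact hx)
  refine ⟨algebraMap M Qb (algebraMap (𝓞 M) M a), algebraMap M Qb (algebraMap (𝓞 M) M b),
    (RingOfIntegers.isIntegral_coe a).map ((algebraMap M Qb).toIntAlgHom),
    (RingOfIntegers.isIntegral_coe b).map ((algebraMap M Qb).toIntAlgHom), ?_, ?_⟩
  · intro hmem
    apply hb
    rw [Pool.Agent.H639R3.mem_cent, Pool.Agent.H639R3.comap_val_lt_one]
    exact (ValuationSubring.mem_nonunits_iff A).1 hmem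
  · rw [← hab, map_mul]
    rfl

end Pool.Agent.W5h33.DF
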