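import Pool.Agent.W5h77.MB.Mu

/-!
# Lifting automorphisms of the residue field
-/

set_option autoImplicit false

namespace Pool.Agent.W5h33.DF

open Pool.Agent.H639R3
open scoped Pointwise

theorem exists_lift_gen {F L A : Type} [Field F] [Field L] [Algebra F L] [IsGalois F L]
    [CommRing A] [IsDedekindDomain A] [Algebra A F] [IsFractionRing A F] [Algebra A L]
    [IsScalarTower A F L] (w : ValuationSubring L) (hA : ∀ a : A, algebraMap A L a ∈ w)
    (t : L ≃+* L) (htw : ∀ x, t x ∈ w ↔ x ∈ w) (hti : ∀ z, IsIntegral A z → IsIntegral A (t z))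
    (hti' : ∀ z, IsIntegral A z → IsIntegral A (t.symm z))
    (htA : ∀ a : A, w.valuation (t (algebraMap A L a) - algebraMap A L a) < 1) :
    ∃ δ : L ≃ₐ[F] L, ∀ z, IsIntegral A z →
      (w.valuation z < 1 ↔ w.valuation (δ z) < 1) ∧ w.valuation (δ z - t z) < 1 := by
  classical
  have halgA : Algebra.IsAlgebraic A L :=
    (IsFractionRing.comap_isAlgebraic_iff (A := A) (K := F) (C := L)).mpr inferInstance
  have hinjAL : Function.Injective (algebraMap A L) := by
    rw [IsScalarTower.algebraMap_eq A F L]
    exact (algebraMap F L).injective.comp (IsFractionRing.injective A F)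
  have htf : IsDomain (integralClosure A L) := inferInstance
  have hFr : IsFractionRing (integralClosure A L) L :=
    integralClosure.isFractionRing_of_algebraic (fun x hx => hinjAL (by rw [hx, map_zero]))
  let _ : MulSemiringAction (L ≃ₐ[F] L) (integralClosure A L) :=
    IsIntegralClosure.MulSemiringAction A F L (integralClosure A L)
  have hsmul : ∀ (σ : L ≃ₐ[F] L) (c : integralClosure A L), ((σ • c : integralClosure A L) : L) =
      σ c := fun σ c => algebraMap_galRestrict_apply A σ c
  let _ : TopologicalSpace (integralClosure A L) := ⊥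
  have hdisc : DiscreteTopology (integralClosure A L) := ⟨rfl⟩
  have hcont : ContinuousSMul (L ≃ₐ[F] L) (integralClosure A L) := by
    refine (continuousSMul_iff_stabilizer_isOpen (M := L ≃ₐ[F] L)
      (X := integralClosure A L)).mpr fun c => ?_
    have h1 := stabilizer_isOpen_of_isIntegral (K := F) (L := L) (c : L)
    convert h1 using 1
    ext σ
    simp only [SetLike.mem_coe, MulAction.mem_stabilizer_iff]
    constructor
    · intro h2
      have h3 := congrArg (fun z : integralClosure A L => (z : L)) h2
      simp only [hsmul] at h3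
      exact h3
    · intro h2
      apply Subtype.ext
      rw [hsmul]
      exact h2
  have hcomm : SMulCommClass (L ≃ₐ[F] L) A (integralClosure A L) := by
    constructor
    intro σ a c
    apply Subtype.ext
    rw [hsmul]
    change σ (a • (c : L)) = a • ((σ • c : integralClosure A L) : L)
    rw [hsmul, Algebra.smul_def, Algebra.smul_def, map_mul]
    congr 1
    rw [IsScalarTower.algebraMap_apply A F L, AlgEquiv.commutes]
  have hinv : Algebra.IsInvariant A (integralClosure A L) (L ≃ₐ[F] L) := by
    refine ⟨fun b hb => ?_⟩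
    have hb2 : ∀ σ : L ≃ₐ[F] L, σ (b : L) = b := fun σ => by rw [← hsmul, hb σ]
    obtain ⟨y, hy⟩ := (InfiniteGalois.mem_range_algebraMap_iff_fixed (k := F) (K := L) (b : L)).mpr hb2
    have hy2 : IsIntegral A y := by
      have := b.2
      rw [mem_integralClosure_iff, ← hy] at this
      exact (isIntegral_algebraMap_iff (algebraMap F L).injective).mp this
    obtain ⟨a, ha⟩ := IsIntegrallyClosed.isIntegral_iff.mp hy2
    refine ⟨a, ?_⟩
    apply Subtype.ext
    change algebraMap A L a = (b : L)
    rw [← hy, ← ha, ← IsScalarTower.algebraMap_apply]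
  have hC : ∀ c : integralClosure A L, algebraMap (integralClosure A L) L c ∈ w := fun c =>
    integral_mem w hA c c.2
  have hval : ∀ x, w.valuation (t x) < 1 ↔ w.valuation x < 1 := by
    intro x
    rw [val_lt_one_iff, val_lt_one_iff, ← map_inv₀, htw]
    simp
  set Q : Ideal (integralClosure A L) := cent w hC with hQdef
  have hQp : Q.IsPrime := cent_isPrime w hC
  let tB : integralClosure A L ≃+* integralClosure A L :=
    { toFun := fun c => ⟨t c, hti c c.2⟩
      invFun := fun c => ⟨t.symm c, hti' c c.2⟩
      left_inv := fun c => Subtype.ext (t.symm_apply_apply _)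
      right_inv := fun c => Subtype.ext (t.apply_symm_apply _)
      map_mul' := fun a b => Subtype.ext (map_mul t _ _)
      map_add' := fun a b => Subtype.ext (map_add t _ _) }
  have htB : ∀ c, ((tB c : integralClosure A L) : L) = t c := fun c => rfl
  have hQmap : Q = Q.map (tB : integralClosure A L →+* integralClosure A L) := by
    have hcQ : ∀ c : integralClosure A L, c ∈ Q ↔ w.valuation (c : L) < 1 := fun c => mem_cent w hC c
    ext c
    rw [Ideal.mem_map_iff_of_surjective
      (tB : integralClosure A L →+* integralClosure A L) tB.surjective]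
    constructor
    · intro hc
      refine ⟨tB.symm c, ?_, tB.apply_symm_apply c⟩
      rw [hcQ] at hc ⊢
      have h1 := hval (t.symm (c : L))
      rw [t.apply_symm_apply] at h1
      exact h1.1 hc
    · rintro ⟨x, hx, rfl⟩
      rw [hcQ] at hx ⊢
      exact (hval (x : L)).2 hx
  set P : Ideal A := Q.under A with hPdef
  have hLO : Q.LiesOver P := ⟨rfl⟩
  let σ : (integralClosure A L ⧸ Q) ≃ₐ[A ⧸ P] (integralClosure A L ⧸ Q) :=
    AlgEquiv.ofRingEquiv (f := Ideal.quotientEquiv Q Q tB hQmap) (by
      intro r
      obtain ⟨a, rfl⟩ := Ideal.Quotient.mk_surjective r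
      show Ideal.Quotient.mk Q (tB (algebraMap A (integralClosure A L) a)) =
        Ideal.Quotient.mk Q (algebraMap A (integralClosure A L) a)
      rw [Ideal.Quotient.eq]
      show _ ∈ cent w hC
      rw [mem_cent]
      exact htA a)
  obtain ⟨δ, hδ⟩ := Ideal.Quotient.stabilizerHom_surjective_of_profinite (G := L ≃ₐ[F] L) P Q σ
  refine ⟨δ.1, fun z hz => ?_⟩
  have h1 : δ.1 • (⟨z, hz⟩ : integralClosure A L) - tB ⟨z, hz⟩ ∈ Q := by
    rw [← Ideal.Quotient.eq]
    have h2 := DFunLike.congr_fun hδ (Ideal.Quotient.mk Q ⟨z, hz⟩)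
    exact h2
  constructor
  · have h2 : (⟨z, hz⟩ : integralClosure A L) ∈ Q ↔
        δ.1 • (⟨z, hz⟩ : integralClosure A L) ∈ Q := by
      have h3 : ∀ I : Ideal (integralClosure A L), δ.1 • Q = I →
          ((⟨z, hz⟩ : integralClosure A L) ∈ Q ↔ δ.1 • (⟨z, hz⟩ : integralClosure A L) ∈ I) := by
        rintro I rfl
        exact Ideal.smul_mem_pointwise_smul_iff.symm
      exact h3 Q δ.2
    have h3 : ∀ c : integralClosure A L, c ∈ Q ↔ w.valuation (c : L) < 1 := fun c => mem_cent w hC c
    rw [h3, h3, hsmul] at h2
    exact h2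
  · have h3 : ∀ c : integralClosure A L, c ∈ Q ↔ w.valuation (c : L) < 1 := fun c => mem_cent w hC c
    rw [h3] at h1
    have h4 : ((δ.1 • (⟨z, hz⟩ : integralClosure A L) - tB ⟨z, hz⟩ : integralClosure A L) : L) =
        δ.1 z - t z := by
      rw [← hsmul δ.1 ⟨z, hz⟩]
      rfl
    rw [h4] at h1
    exact h1

end Pool.Agent.W5h33.DF
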