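import Pool.Agent.W5h33.DF.Nrm

/-!
# The group-theoretical theorem
-/

set_option autoImplicit false

namespace Pool.Agent.W5h33.DF

open Subgroup Pool.Agent.Q60.MU Pool.Agent.W5h77.MB
open Pool.Agent.X310.Mu (nm nm_eq nm_of_fix nm_fix eq_one_of_cop)
open scoped commutatorElement

variable {𝔾 : Type} [Group 𝔾]

/-- A generator modulo `D`. -/
theorem exists_gamma {K D : Subgroup 𝔾} [hDn : D.Normal]
    (hσ : ∃ σ : 𝔾, ∀ τ, ∃ i : ℤ, τ * (σ ^ i)⁻¹ ∈ D) :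
    ∃ γ ∈ K, ∀ τ ∈ K, ∃ i : ℤ, τ * (γ ^ i)⁻¹ ∈ D := by
  obtain ⟨σ, hσ⟩ := hσ
  have h1 : ∀ a b : 𝔾, a * b⁻¹ ∈ D ↔ (a : 𝔾 ⧸ D) = (b : 𝔾 ⧸ D) := by
    intro a b
    rw [← QuotientGroup.eq_one_iff, QuotientGroup.mk_mul, QuotientGroup.mk_inv, mul_inv_eq_one]
  have hcyc : IsCyclic (𝔾 ⧸ D) := by
    refine ⟨(σ : 𝔾 ⧸ D), fun q => ?_⟩
    obtain ⟨τ, rfl⟩ := QuotientGroup.mk_surjective q
    obtain ⟨i, hi⟩ := hσ τ
    refine ⟨i, ?_⟩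
    rw [h1, QuotientGroup.mk_zpow] at hi
    exact hi.symm
  have hcyc2 : IsCyclic (K.map (QuotientGroup.mk' D)) := inferInstance
  obtain ⟨⟨_, γ, hγ, rfl⟩, hgen⟩ := hcyc2.exists_generator
  refine ⟨γ, hγ, fun τ hτ => ?_⟩
  obtain ⟨i, hi⟩ := hgen ⟨QuotientGroup.mk' D τ, τ, hτ, rfl⟩
  refine ⟨i, ?_⟩
  rw [h1, QuotientGroup.mk_zpow]
  have h2 := congrArg Subtype.val hi
  exact h2.symm

theorem comm_mem_of {D : Subgroup 𝔾} [hDn : D.Normal]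
    (hσ : ∃ σ : 𝔾, ∀ τ, ∃ i : ℤ, τ * (σ ^ i)⁻¹ ∈ D) (a b : 𝔾) : ⁅a, b⁆ ∈ D := by
  obtain ⟨σ, hσ⟩ := hσ
  have h1 : ∀ a : 𝔾, ∃ i : ℤ, (a : 𝔾 ⧸ D) = (σ : 𝔾 ⧸ D) ^ i := by
    intro a
    obtain ⟨i, hi⟩ := hσ a
    refine ⟨i, ?_⟩
    rw [← QuotientGroup.eq_one_iff, QuotientGroup.mk_mul, QuotientGroup.mk_inv,
      QuotientGroup.mk_zpow] at hi
    exact mul_inv_eq_one.1 hi
  obtain ⟨i, hi⟩ := h1 a
  obtain ⟨j, hj⟩ := h1 b
  rw [← QuotientGroup.eq_one_iff]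
  show QuotientGroup.mk' D ⁅a, b⁆ = 1
  rw [map_commutatorElement, commutatorElement_eq_one_iff_mul_comm]
  show (a : 𝔾 ⧸ D) * (b : 𝔾 ⧸ D) = (b : 𝔾 ⧸ D) * (a : 𝔾 ⧸ D)
  rw [hi, hj]
  exact ((Commute.refl (σ : 𝔾 ⧸ D)).zpow_zpow i j).eq

theorem mod_gamma {K D D' : Subgroup 𝔾} [hDn : D.Normal] (hDD : D' ≤ D) {γ : 𝔾} (hγK : γ ∈ K)
    (hγ : ∀ τ ∈ K, ∃ i : ℤ, τ * (γ ^ i)⁻¹ ∈ D') {x : 𝔾} (hxK : x ∈ K) (hx : x ∈ D) :
    ∃ j : ℤ, x * ((γ ^ D.relIndex K) ^ j)⁻¹ ∈ D' := by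
  obtain ⟨i, hi⟩ := hγ x hxK
  have h1 : γ ^ i ∈ D := by
    have h2 : γ ^ i = (x * (γ ^ i)⁻¹)⁻¹ * x := by group
    rw [h2]
    exact D.mul_mem (D.inv_mem (hDD hi)) hx
  let γ' : K := ⟨γ, hγK⟩
  have h2 : ∀ q : K ⧸ D.subgroupOf K, q ∈ zpowers (γ' : K ⧸ D.subgroupOf K) := by
    intro q
    obtain ⟨τ, rfl⟩ := QuotientGroup.mk_surjective q
    obtain ⟨k, hk⟩ := hγ τ τ.2
    refine ⟨k, ?_⟩
    have h3 : τ * (γ' ^ k)⁻¹ ∈ D.subgroupOf K := by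
      rw [mem_subgroupOf]
      exact hDD hk
    rw [← QuotientGroup.eq_one_iff, QuotientGroup.mk_mul, QuotientGroup.mk_inv,
      QuotientGroup.mk_zpow] at h3
    exact (mul_inv_eq_one.1 h3).symm
  have h3 : orderOf (γ' : K ⧸ D.subgroupOf K) = D.relIndex K := by
    rw [orderOf_eq_card_of_forall_mem_zpowers h2]
    rfl
  have h4 : (γ' : K ⧸ D.subgroupOf K) ^ i = 1 := by
    rw [← QuotientGroup.mk_zpow, QuotientGroup.eq_one_iff, mem_subgroupOf]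
    exact h1
  have h5 := orderOf_dvd_iff_zpow_eq_one.2 h4
  rw [h3] at h5
  obtain ⟨j, hj⟩ := h5
  refine ⟨j, ?_⟩
  rw [← zpow_natCast γ (D.relIndex K), ← zpow_mul, ← hj]
  exact hi

/-- The fixed elements. -/
def fixS {V : Type} [Group V] (D : Subgroup (MulAut V)) : Subgroup V where
  carrier := {v | ∀ δ ∈ D, δ v = v}
  mul_mem' := by
    intro a b ha hb δ hδ
    rw [map_mul, ha δ hδ, hb δ hδ]
  one_mem' := fun δ _ => map_one δ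
  inv_mem' := by
    intro a ha δ hδ
    rw [map_inv, ha δ hδ]

theorem mem_fixS {V : Type} [Group V] {D : Subgroup (MulAut V)} {v : V} :
    v ∈ fixS D ↔ ∀ δ ∈ D, δ v = v := Iff.rfl

theorem rel_inf {K D L : Subgroup 𝔾} (hL : L ≤ D) : (K ⊓ D).relIndex L = K.relIndex L := by
  rw [← inf_relIndex_right, ← inf_relIndex_right K]
  congr 1
  ext x
  simp only [mem_inf]
  constructor
  · rintro ⟨⟨h1, -⟩, h2⟩
    exact ⟨h1, h2⟩
  · rintro ⟨h1, h2⟩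
    exact ⟨⟨h1, hL h2⟩, h2⟩

theorem main [TopologicalSpace 𝔾] [ContinuousMul 𝔾] {p : ℕ} [hp : Fact p.Prime]
    {Ω : Type} [MulAction 𝔾 Ω] {I : Ω → Subgroup 𝔾}
    (hI : ∀ (g : 𝔾) (w : Ω), ∀ x ∈ I w, g * x * g⁻¹ ∈ I (g • w))
    {K F B D D' : Subgroup 𝔾} (hKn : K.Normal) (hFn : F.Normal) (hBn : B.Normal) (hDn : D.Normal)
    (hD'n : D'.Normal) (hKF : K ≤ F) (hFB : F ≤ B) (hDD : D' ≤ D) (hK0 : K.index ≠ 0)
    (hKp : ¬ p ∣ K.relIndex B) {m m' : ℕ} (hDi : D.index = p ^ m)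
    (hD'i : D'.index = p ^ m') (hσ : ∃ σ : 𝔾, ∀ τ, ∃ i : ℤ, τ * (σ ^ i)⁻¹ ∈ D')
    (w : Ω) (hcov : ∀ A, I A ≤ D' ∨ ∃ g : 𝔾, A = g • w) {δ : ℕ}
    (hδ : δ = 1 ∨ (δ = 2 ∧ F ≤ K ⊔ commutator 𝔾))
    {C E T : ℕ} (hC : RankLe p I (K ⊓ D) C) (hE : ¬ RankLe p I (F ⊓ D) E)
    (hCE : C < p ^ (δ * D.relIndex K) * (E + 1))
    (hT : (∃ CF CZ, RankLe p I (F ⊓ D') CF ∧
        RankLe p I ((K ⊔ MulAction.stabilizer 𝔾 w ⊓ B) ⊓ D') CZ ∧
        T = CF * CZ ^ (K ⊔ MulAction.stabilizer 𝔾 w ⊓ B).index) ∨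
      (F ≤ K ⊔ MulAction.stabilizer 𝔾 w ⊓ B ∧ RankLe p I (F ⊓ D') T)) :
    RankLe p I (K ⊓ D') (C / (E + 1) * T) := by
  classical
  intro Y hYH hYo hYf hg
  have hKB : K ≤ B := hKF.trans hFB
  have hD'0 : D'.index ≠ 0 := by
    rw [hD'i]
    exact (pow_pos hp.out.pos m').ne'
  set Z₀ : Subgroup 𝔾 := K ⊔ MulAction.stabilizer 𝔾 w ⊓ B with hZ₀
  have hKZ : K ≤ Z₀ := le_sup_left
  have hZB : Z₀ ≤ B := sup_le hKB inf_le_right
  have hrel : ∀ L : Subgroup 𝔾, L ≤ B → K.relIndex L ∣ K.relIndex B := by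
    intro L hL
    have h4 : (K.subgroupOf B).Normal := hKn.subgroupOf B
    have h5 := relIndex_dvd_index_of_normal (K.subgroupOf B) (L.subgroupOf B)
    rw [relIndex_subgroupOf hL] at h5
    exact h5
  have hZ₀0 : Z₀.index ≠ 0 := by
    intro h
    have h1 := index_dvd_of_le hKZ
    rw [h] at h1
    exact hK0 (Nat.eq_zero_of_zero_dvd h1)
  set 𝒦' : Subgroup 𝔾 := K ⊓ D' with h𝒦'def
  have h𝒦'n : 𝒦'.Normal := normal_inf_normal K D'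
  have h𝒦'0 : 𝒦'.index ≠ 0 := index_inf_ne_zero hK0 hD'0
  obtain ⟨Q, hQY, hQo, hQf, hgQ, hQn⟩ := exists_core hI (K := 𝒦') (D := ⊤)
    (fun d _ x hx => h𝒦'n.conj_mem x hx d) (by rwa [relIndex_top_right]) hYH hYo hYf hg
  have hQK := hQY.trans hYH
  have hQnorm : Q.Normal := ⟨fun x hx g => hQn g trivial x hx⟩
  refine (relIndex_le_of_le_left hQY hQf).trans ?_
  rw [← card_VV 𝒦' Q]
  have hfin : Finite (VV 𝒦' Q) := by
    apply Nat.finite_of_card_ne_zero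
    rw [card_VV]
    exact hQf
  have hcomm : ∀ u v : VV 𝒦' Q, u * v = v * u := by
    intro u v
    obtain ⟨x, rfl⟩ := th_surj 𝒦' Q u
    obtain ⟨y, rfl⟩ := th_surj 𝒦' Q v
    have h3 : th 𝒦' Q ⁅x, y⁆ = 1 := by
      rw [th_eq_one]
      exact hgQ (Or.inl (Or.inr ⟨x, x.2, y, y.2, rfl⟩))
    rw [map_commutatorElement, commutatorElement_eq_one_iff_mul_comm] at h3
    exact h3
  have hpow : ∀ v : VV 𝒦' Q, v ^ p = 1 := by
    intro v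
    obtain ⟨x, rfl⟩ := th_surj 𝒦' Q v
    rw [← map_pow, th_eq_one]
    exact hgQ (Or.inl (Or.inl ⟨x, x.2, rfl⟩))
  let _ : CommGroup (VV 𝒦' Q) := { (inferInstance : Group (VV 𝒦' Q)) with mul_comm := hcomm }
  have htriv : ∀ x ∈ 𝒦', act 𝒦' Q x = 1 := by
    intro x hx
    ext1 v
    obtain ⟨y, rfl⟩ := th_surj 𝒦' Q v
    rw [act_th, MulAut.one_apply]
    have h3 : (⟨x * y * x⁻¹, h𝒦'n.conj_mem y y.2 x⟩ : 𝒦') = ⟨x, hx⟩ * y * ⟨x, hx⟩⁻¹ := rfl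
    rw [h3, map_mul, map_mul, map_inv, hcomm (th 𝒦' Q ⟨x, hx⟩), mul_assoc, mul_inv_cancel, mul_one]
  -- subgroups of `D'` act through groups of order prime to `p`
  have hpL : ∀ L : Subgroup 𝔾, L ≤ B ⊓ D' → ¬ p ∣ 𝒦'.relIndex L := by
    intro L hL h
    rw [h𝒦'def, rel_inf (hL.trans inf_le_right)] at h
    exact hKp (h.trans (hrel L (hL.trans inf_le_left)))
  have hpD : ∀ L : Subgroup 𝔾, L ≤ B ⊓ D' → ¬ p ∣ Nat.card (L.map (act 𝒦' Q)) := by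
    intro L hL h
    apply hpL L hL
    refine h.trans ?_
    have h3 : L.map (act 𝒦' Q) = ((act 𝒦' Q).comp L.subtype).range := by
      ext δ
      constructor
      · rintro ⟨l, hl, rfl⟩
        exact ⟨⟨l, hl⟩, rfl⟩
      · rintro ⟨l, rfl⟩
        exact ⟨l, l.2, rfl⟩
    rw [h3, ← index_ker]
    show _ ∣ (𝒦'.subgroupOf L).index
    apply index_dvd_of_le
    intro x hx
    exact htriv _ hx
  -- the fixed elements
  set DZ : Subgroup (MulAut (VV 𝒦' Q)) := (Z₀ ⊓ D').map (act 𝒦' Q) with hDZ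
  set DF : Subgroup (MulAut (VV 𝒦' Q)) := (F ⊓ D').map (act 𝒦' Q) with hDF
  have hZ'B : Z₀ ⊓ D' ≤ B ⊓ D' := inf_le_inf_right _ hZB
  have hF'B : F ⊓ D' ≤ B ⊓ D' := inf_le_inf_right _ hFB
  have hbd : ∀ L : Subgroup 𝔾, 𝒦' ≤ L → L ≤ B ⊓ D' → ∀ c, RankLe p I L c →
      Nat.card (fixS (L.map (act 𝒦' Q))) ≤ c := by
    intro L hL1 hL2 c hc
    refine (card_fix_le hp.out hpow (L.map (act 𝒦' Q)) (hpD L hL2) (fixS (L.map (act 𝒦' Q)))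
      fun v hv δ hδ => hv δ hδ).trans ?_
    refine step 𝒦' Q (S := (nu (L.map (act 𝒦' Q))).ker) hL1 (hpL L hL2) hQK hQo hQf hgQ ?_ hc
    intro l hl v
    rw [MonoidHom.mem_ker, map_mul, map_inv, nu_act (L.map (act 𝒦' Q)) ⟨l, hl, rfl⟩,
      mul_inv_cancel]
  have hstab : ∀ (g : 𝔾) (L : Subgroup 𝔾), (∀ l ∈ L, g⁻¹ * l * g ∈ L) →
      ∀ v ∈ fixS (L.map (act 𝒦' Q)), act 𝒦' Q g v ∈ fixS (L.map (act 𝒦' Q)) := by
    rintro g L hgL v hv _ ⟨l, hl, rfl⟩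
    have h1 : l * g = g * (g⁻¹ * l * g) := by group
    rw [← MulAut.mul_apply, ← map_mul, h1, map_mul, MulAut.mul_apply, hv _ ⟨_, hgL l hl, rfl⟩]
  have hFstab : ∀ g : 𝔾, ∀ v ∈ fixS DF, act 𝒦' Q g v ∈ fixS DF := by
    intro g
    apply hstab
    rintro l ⟨hl1, hl2⟩
    have h1 := hFn.conj_mem l hl1 g⁻¹
    have h2 := hD'n.conj_mem l hl2 g⁻¹
    rw [inv_inv] at h1 h2
    exact ⟨h1, h2⟩
  have hZstab : ∀ g ∈ Z₀, ∀ v ∈ fixS DZ, act 𝒦' Q g v ∈ fixS DZ := by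
    intro g hg
    apply hstab
    rintro l ⟨hl1, hl2⟩
    have h2 := hD'n.conj_mem l hl2 g⁻¹
    rw [inv_inv] at h2
    exact ⟨Z₀.mul_mem (Z₀.mul_mem (Z₀.inv_mem hg) hl1) hg, h2⟩
  have hZfi : Z₀.FiniteIndex := ⟨hZ₀0⟩
  have : Fintype (𝔾 ⧸ Z₀) := Fintype.ofFinite _
  let J : 𝔾 ⧸ Z₀ → Subgroup (VV 𝒦' Q) := fun i => (fixS DZ).map (act 𝒦' Q i.out).toMonoidHom
  let UZ : Subgroup (VV 𝒦' Q) := Finset.univ.sup J
  have hJU : ∀ i, J i ≤ UZ := fun i => Finset.le_sup (f := J) (Finset.mem_univ i)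
  have hJmem : ∀ (g : 𝔾), ∀ u ∈ fixS DZ, act 𝒦' Q g u ∈ UZ := by
    intro g u hu
    obtain ⟨z, hz⟩ := QuotientGroup.mk_out_eq_mul Z₀ g
    apply hJU (QuotientGroup.mk g)
    refine ⟨act 𝒦' Q ((z : 𝔾)⁻¹) u, hZstab _ (Z₀.inv_mem z.2) u hu, ?_⟩
    show act 𝒦' Q ((QuotientGroup.mk g : 𝔾 ⧸ Z₀).out) (act 𝒦' Q ((z : 𝔾)⁻¹) u) = _
    rw [hz, ← MulAut.mul_apply, ← map_mul, mul_inv_cancel_right]
  have hUZstab : ∀ g : 𝔾, ∀ v ∈ UZ, act 𝒦' Q g v ∈ UZ := by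
    intro g
    have h1 : UZ ≤ UZ.comap (act 𝒦' Q g).toMonoidHom := by
      refine Finset.sup_le fun i _ => ?_
      rintro _ ⟨u, hu, rfl⟩
      show act 𝒦' Q g (act 𝒦' Q i.out u) ∈ UZ
      rw [← MulAut.mul_apply, ← map_mul]
      exact hJmem _ u hu
    exact fun v hv => h1 hv
  have hZU : fixS DZ ≤ UZ := by
    intro u hu
    have h1 := hJmem 1 u hu
    rwa [map_one, MulAut.one_apply] at h1
  have hcardUZ : ∀ CZ, RankLe p I (Z₀ ⊓ D') CZ → Nat.card UZ ≤ CZ ^ Z₀.index := by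
    intro CZ hCZ
    have h1 : Nat.card (fixS DZ) ≤ CZ :=
      hbd (Z₀ ⊓ D') (inf_le_inf_right _ hKZ) hZ'B CZ hCZ
    have h2 : ∀ i, Nat.card (J i) ≤ CZ := by
      intro i
      refine le_trans ?_ h1
      refine Nat.card_le_card_of_surjective (fun x : fixS DZ => (⟨act 𝒦' Q i.out x, x, x.2, rfl⟩ : J i)) ?_
      rintro ⟨_, x, hx, rfl⟩
      exact ⟨⟨x, hx⟩, rfl⟩
    have h3 := card_finset_sup_le J CZ h2 Finset.univ
    rw [Finset.card_univ, ← Nat.card_eq_fintype_card] at h3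
    exact h3
  set U : Subgroup (VV 𝒦' Q) := fixS DF ⊔ UZ with hU
  have hcardU : Nat.card U ≤ T := by
    rcases hT with ⟨CF, CZ, h1, h2, rfl⟩ | ⟨hFZ, h1⟩
    · refine (card_sup_le' _ _).trans (Nat.mul_le_mul ?_ (hcardUZ CZ h2))
      exact hbd (F ⊓ D') (inf_le_inf_right _ hKF) hF'B CF h1
    · have h2 : UZ ≤ fixS DF := by
        refine Finset.sup_le fun i _ => ?_
        rintro _ ⟨u, hu, rfl⟩
        refine hFstab i.out u ?_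
        rintro _ ⟨l, hl, rfl⟩
        exact hu _ ⟨l, ⟨hFZ hl.1, hl.2⟩, rfl⟩
      rw [hU, sup_eq_left.2 h2]
      exact hbd (F ⊓ D') (inf_le_inf_right _ hKF) hF'B T h1
  have hUstab : ∀ g : 𝔾, ∀ v ∈ U, act 𝒦' Q g v ∈ U := by
    intro g
    have h1 : U ≤ U.comap (act 𝒦' Q g).toMonoidHom := by
      rw [hU]
      exact sup_le (fun v hv => mem_sup_left (hFstab g v hv))
        (fun v hv => mem_sup_right (hUZstab g v hv))
    exact fun v hv => h1 hv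
  -- the filtration
  obtain ⟨γ, hγK, hγ⟩ := exists_gamma (K := K) hσ
  obtain ⟨e₀, -, he₀⟩ : ∃ a ≤ m, D.relIndex K = p ^ a :=
    (Nat.dvd_prime_pow hp.out).1 (hDi ▸ relIndex_dvd_index_of_normal D K)
  have hcm := comm_mem_of hσ
  let φ : VV 𝒦' Q →* VV 𝒦' Q :=
    { toFun := fun v => act 𝒦' Q γ v * v⁻¹
      map_one' := by rw [map_one, inv_one, mul_one]
      map_mul' := fun u v => by rw [map_mul, mul_inv, mul_mul_mul_comm] }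
  have hφ : ∀ v, φ v = act 𝒦' Q γ v * v⁻¹ := fun _ => rfl
  have hφc : ∀ (h : 𝔾) (v : VV 𝒦' Q), act 𝒦' Q h (φ v) = φ (act 𝒦' Q h v) := by
    intro h v
    have h1 : ⁅h, γ⁆ ∈ 𝒦' := by
      refine ⟨?_, hcm h γ⟩
      rw [commutatorElement_def]
      exact K.mul_mem (hKn.conj_mem γ hγK h) (K.inv_mem hγK)
    have h2 : h * γ = ⁅h, γ⁆ * (γ * h) := by
      rw [commutatorElement_def]
      group
    rw [hφ, hφ, map_mul, map_inv, ← MulAut.mul_apply, ← map_mul, h2, map_mul, htriv _ h1, one_mul,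
      map_mul, MulAut.mul_apply]
  have hUφ : ∀ u ∈ U, φ u ∈ U := fun u hu => U.mul_mem (hUstab γ u hu) (U.inv_mem hu)
  have hfrob : ∀ (b : ℕ) (v : VV 𝒦' Q), φ^[p ^ b] v = act 𝒦' Q (γ ^ p ^ b) v * v⁻¹ := by
    intro b v
    rw [frob hpow (act 𝒦' Q γ) φ hφ b v, map_pow]
  have hN : ∀ v, φ^[p ^ m'] v = 1 := by
    intro v
    have h1 : γ ^ p ^ m' ∈ 𝒦' := by
      refine ⟨K.pow_mem hγK _, ?_⟩
      rw [← hD'i]
      exact D'.pow_index_mem γ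
    rw [hfrob, htriv _ h1, MulAut.one_apply, mul_inv_cancel]
  set S : Subgroup (VV 𝒦' Q) := fil U φ (p ^ e₀) with hS
  have hSstab : ∀ g : 𝔾, ∀ v ∈ S, act 𝒦' Q g v ∈ S := fun g =>
    fil_stable (hUstab g) (hφc g) _
  have hUS : U ≤ S := le_fil U φ _
  set W' : Subgroup 𝔾 := pre 𝒦' Q S with hW'
  have hQW : Q ≤ W' := le_pre 𝒦' Q hQK S
  have hWK : W' ≤ 𝒦' := pre_le 𝒦' Q S
  have hmemW : ∀ (x : 𝔾) (hx : x ∈ 𝒦'), x ∈ W' ↔ th 𝒦' Q ⟨x, hx⟩ ∈ S := fun x hx =>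
    mem_pre 𝒦' Q S ⟨x, hx⟩
  have hW'n : W'.Normal := by
    refine ⟨fun x hx g => ?_⟩
    have hx' := hWK hx
    rw [hmemW _ (h𝒦'n.conj_mem x hx' g)]
    have h1 := hSstab g _ ((hmemW x hx').1 hx)
    rw [act_th] at h1
    exact h1
  have hactc : ∀ (g x : 𝔾) (hx : x ∈ 𝒦') (h : ⁅g, x⁆ ∈ 𝒦'),
      act 𝒦' Q g (th 𝒦' Q ⟨x, hx⟩) * (th 𝒦' Q ⟨x, hx⟩)⁻¹ = th 𝒦' Q ⟨⁅g, x⁆, h⟩ := by
    intro g x hx h
    rw [act_th, ← map_inv, ← map_mul]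
    rfl
  have hcK : ∀ (g x : 𝔾), x ∈ 𝒦' → ⁅g, x⁆ ∈ 𝒦' := by
    intro g x hx
    rw [commutatorElement_def]
    exact 𝒦'.mul_mem (h𝒦'n.conj_mem x hx g) (𝒦'.inv_mem hx)
  have hfs : ∀ (j : ℕ) (g : 𝔾), ∀ v ∈ fil U φ j, act 𝒦' Q g v ∈ fil U φ j := fun j g =>
    fil_stable (hUstab g) (hφc g) j
  set 𝒦 : Subgroup 𝔾 := K ⊓ D with h𝒦def
  have h𝒦n : 𝒦.Normal := normal_inf_normal K D
  have hKK : 𝒦' ≤ 𝒦 := inf_le_inf_left K hDD
  have hγ1 : γ ^ p ^ e₀ ∈ 𝒦 := by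
    refine ⟨K.pow_mem hγK _, ?_⟩
    have h1 : (⟨γ, hγK⟩ : K) ^ (D.subgroupOf K).index ∈ D.subgroupOf K :=
      (D.subgroupOf K).pow_index_mem _
    have h2 : (D.subgroupOf K).index = p ^ e₀ := he₀
    rw [h2] at h1
    exact h1
  have hdec : ∀ x ∈ 𝒦, ∃ k ∈ 𝒦', ∃ j : ℤ, x = k * (γ ^ p ^ e₀) ^ j := by
    rintro x ⟨hxK, hxD⟩
    obtain ⟨j, hj⟩ := mod_gamma hDD hγK hγ hxK hxD
    rw [he₀] at hj
    refine ⟨x * ((γ ^ p ^ e₀) ^ j)⁻¹, ⟨?_, hj⟩, j, by rw [inv_mul_cancel_right]⟩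
    exact K.mul_mem hxK (K.inv_mem (K.zpow_mem hγ1.1 j))
  have hKA : ∀ x ∈ 𝒦, ∀ v : VV 𝒦' Q, act 𝒦' Q x v * v⁻¹ ∈ S := by
    intro x hx
    obtain ⟨k, hk, j, rfl⟩ := hdec x hx
    let A₀ := actSub (act 𝒦' Q) ⊤ S (fun _ _ _ => mem_top _)
    have h1 : k ∈ A₀ := by
      intro v _
      rw [htriv k hk, MulAut.one_apply, mul_inv_cancel]
      exact S.one_mem
    have h2 : γ ^ p ^ e₀ ∈ A₀ := by
      intro v _
      rw [← hfrob]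
      exact iter_mem U φ _ v
    exact fun v => A₀.mul_mem h1 (A₀.zpow_mem h2 j) v (mem_top v)
  have hab1 : ∀ a ∈ 𝒦, ∀ b ∈ 𝒦', ⁅a, b⁆ ∈ W' := by
    intro a ha b hb
    rw [hmemW _ (hcK a b hb), ← hactc a b hb]
    exact hKA a ha _
  have hC1 : ∀ a b : 𝔾, ⁅a, b⁆ ∈ W' ↔ Commute (a : 𝔾 ⧸ W') (b : 𝔾 ⧸ W') := by
    intro a b
    rw [← QuotientGroup.eq_one_iff]
    show QuotientGroup.mk' W' ⁅a, b⁆ = 1 ↔ _
    rw [map_commutatorElement, commutatorElement_eq_one_iff_commute]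
    rfl
  have hab2 : ∀ a ∈ 𝒦, Commute (a : 𝔾 ⧸ W') ((γ ^ p ^ e₀ : 𝔾) : 𝔾 ⧸ W') := by
    intro a ha
    obtain ⟨k, hk, j, rfl⟩ := hdec a ha
    rw [QuotientGroup.mk_mul, QuotientGroup.mk_zpow]
    exact ((hC1 _ _).1 (hab1 _ hγ1 k hk)).symm.mul_left ((Commute.refl _).zpow_left j)
  have hab : ∀ a ∈ 𝒦, ∀ b ∈ 𝒦, ⁅a, b⁆ ∈ W' := by
    intro a ha b hb
    rw [hC1]
    obtain ⟨k, hk, j, rfl⟩ := hdec b hb
    rw [QuotientGroup.mk_mul, QuotientGroup.mk_zpow]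
    exact ((hC1 _ _).1 (hab1 a ha k hk)).mul_right ((hab2 a ha).zpow_right j)
  -- the lower bound for `F`
  have hM : ∃ M : Subgroup 𝔾, M ≤ F ⊓ D ∧ IsOpen (M : Set 𝔾) ∧ M.relIndex (F ⊓ D) ≠ 0 ∧
      gens p I (F ⊓ D) ⊆ M ∧ E < M.relIndex (F ⊓ D) := by
    by_contra hcon
    apply hE
    intro M h1 h2 h3 h4
    by_contra h5
    exact hcon ⟨M, h1, h2, h3, h4, not_le.1 h5⟩
  obtain ⟨M, hM1, hM2, hM3, hM4, hM5⟩ := hM
  have hSnofix : ∀ L : Subgroup 𝔾, L ≤ B ⊓ D' → fixS (L.map (act 𝒦' Q)) ≤ S →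
      ∀ x ∈ 𝒦', (∀ z ∈ L, ⁅z, x⁆ ∈ W') → x ∈ W' := by
    intro L hL hLS x hx h
    rw [hmemW x hx]
    refine nofix hp.out (L.map (act 𝒦' Q)) (hpD L hL) S (fun v hv => hLS hv) (hpow _) ?_
    rintro _ ⟨z, hz, rfl⟩
    rw [hactc z x hx (hcK z x hx), ← hmemW]
    exact h z hz
  have hkey := key (p := p) (I := I) 𝒦 𝒦' (B ⊓ D') (Z₀ ⊓ D') W' (F ⊓ D) (F ⊓ D') M
    (normal_inf_normal B D') hKK hZ'B (inf_le_inf_right _ hKF) (inf_le_inf_left _ hDD) hF'B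
    (by
      intro h
      rw [h𝒦def, rel_inf inf_le_right] at h
      exact hKp (h.trans (hrel _ (inf_le_left.trans hFB))))
    hM2 hM3 hM4 hWK (Subgroup.isOpen_mono hQW hQo)
    (by
      rw [← relIndex_mul_relIndex W' 𝒦' 𝒦 hWK hKK]
      refine mul_ne_zero ?_ ?_
      · rw [hW', pre_relIndex]
        exact S.index_ne_zero_of_finite
      · intro h
        have h1 := relIndex_dvd_index_of_normal 𝒦' 𝒦
        rw [h] at h1
        exact h𝒦'0 (Nat.eq_zero_of_zero_dvd h1))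
    (fun x hx => hQW (hgQ (Or.inl (Or.inl ⟨x, hx, rfl⟩)))) hab
    (by
      rintro r hr a ⟨haK, haD⟩
      refine ⟨?_, hcm r a⟩
      rw [commutatorElement_def]
      exact K.mul_mem (hKn.conj_mem a haK r) (K.inv_mem haK))
    (hpL _ le_rfl)
    (hSnofix (Z₀ ⊓ D') hZ'B ((hZU.trans le_sup_right).trans hUS))
    (hSnofix (F ⊓ D') hF'B (le_sup_left.trans hUS))
    (by
      intro x hx A hA
      rcases hcov A with h | ⟨g, rfl⟩
      · left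
        exact hQW (hgQ (Or.inr ⟨⟨hx.1, h hA⟩, A, hA⟩))
      · right
        refine ⟨g, ?_⟩
        rintro z ⟨hzZ, hzD⟩
        have hx1 : g⁻¹ * x * g ∈ I w := by
          have h1 := hI g⁻¹ (g • w) x hA
          rwa [inv_smul_smul, inv_inv] at h1
        have hx2 : g⁻¹ * x * g ∈ 𝒦 := by
          have h1 := h𝒦n.conj_mem x hx g⁻¹
          rwa [inv_inv] at h1
        generalize g⁻¹ * x * g = y at hx1 hx2 ⊢
        have hzZ' : z ∈ K ⊔ MulAction.stabilizer 𝔾 w ⊓ B := hzZ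
        rw [← SetLike.mem_coe, Subgroup.normal_mul] at hzZ'
        obtain ⟨k, hk, s, ⟨hs, hsB⟩, hks⟩ := hzZ'
        have hc : Nat.Coprime (K.relIndex B) (p ^ m') :=
          Nat.Coprime.pow_right m' (((Nat.Prime.coprime_iff_not_dvd hp.out).2 hKp).symm)
        obtain ⟨e, he1, he2⟩ := Nat.chineseRemainder hc 1 0
        have hsD : s ^ e ∈ D' := by
          obtain ⟨j, rfl⟩ := (Nat.modEq_zero_iff_dvd).1 he2
          rw [pow_mul, ← hD'i]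
          exact D'.pow_mem (D'.pow_index_mem s) j
        have hsw : s ^ e ∈ MulAction.stabilizer 𝔾 w := Subgroup.pow_mem _ hs e
        have hkK : z * (s ^ e)⁻¹ ∈ K := by
          rw [← QuotientGroup.eq_one_iff, QuotientGroup.mk_mul, QuotientGroup.mk_inv,
            QuotientGroup.mk_pow, ← hks]
          have h3 : (s : 𝔾 ⧸ K) ^ K.relIndex B = 1 := by
            rw [← QuotientGroup.mk_pow, QuotientGroup.eq_one_iff]
            have hn : (K.subgroupOf B).Normal := hKn.subgroupOf B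
            exact (K.subgroupOf B).pow_index_mem (⟨s, hsB⟩ : B)
          have h4 : (s : 𝔾 ⧸ K) ^ e = (s : 𝔾 ⧸ K) ^ 1 := by
            rw [pow_eq_pow_iff_modEq]
            exact he1.of_dvd (orderOf_dvd_of_pow_eq_one h3)
          have h5 : ((k * s : 𝔾) : 𝔾 ⧸ K) = (s : 𝔾 ⧸ K) := by
            rw [QuotientGroup.mk_mul, (QuotientGroup.eq_one_iff k).2 hk, one_mul]
          show ((k * s : 𝔾) : 𝔾 ⧸ K) * _ = 1
          rw [h4, h5, pow_one, mul_inv_cancel]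
        have hk𝒦 : z * (s ^ e)⁻¹ ∈ 𝒦' := ⟨hkK, D'.mul_mem hzD (D'.inv_mem hsD)⟩
        have hcs : ⁅s ^ e, y⁆ ∈ W' := by
          apply hQW
          refine hgQ (Or.inr ⟨⟨?_, hcm _ _⟩, w, ?_⟩)
          · rw [commutatorElement_def]
            exact K.mul_mem (hKn.conj_mem y hx2.1 _) (K.inv_mem hx2.1)
          · have h6 := hI (s ^ e) w y hx1
            rw [MulAction.mem_stabilizer_iff.1 hsw] at h6
            rw [commutatorElement_def]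
            exact (I w).mul_mem h6 ((I w).inv_mem hx1)
        have h7 := hab _ (hKK hk𝒦) y hx2
        generalize s ^ e = t at *
        generalize hkk : z * t⁻¹ = k₁ at *
        have h8 : z = k₁ * t := by rw [← hkk, inv_mul_cancel_right]
        have h9 : ⁅z, y⁆ = (k₁ * ⁅t, y⁆ * k₁⁻¹) * ⁅k₁, y⁆ := by
          rw [h8, commutatorElement_def, commutatorElement_def, commutatorElement_def]
          group
        rw [h9]
        exact W'.mul_mem (hW'n.conj_mem _ hcs _) h7)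
    hC
  rw [hW', pre_relIndex] at hkey
  have hkey2 : S.index * (E + 1) ≤ C := (Nat.mul_le_mul_left _ hM5).trans hkey
  have hdim : ∀ j, ∀ n, n ≠ 0 → (fil U φ (j + 1)).relIndex (fil U φ j) = p ^ n → δ ≤ n := by
    intro j n hn0 hn
    rcases hδ with rfl | ⟨rfl, hFc⟩
    · exact Nat.one_le_iff_ne_zero.2 hn0
    · by_contra hlt
      have hn1 : n = 1 := by omega
      rw [hn1, pow_one] at hn
      have h1 := comm_act (act 𝒦' Q) (hfs j) (hfs (j + 1)) hp.out hn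
      have h2 : fil U φ j ≤ fil U φ (j + 1) := by
        intro v hv
        refine nofix hp.out DF (hpD _ hF'B) (fil U φ (j + 1))
          (fun v hv => le_fil U φ (j + 1) (mem_sup_left hv)) (hpow v) ?_
        rintro _ ⟨l, ⟨hl, -⟩, rfl⟩
        have h3 : K ≤ actSub (act 𝒦' Q) (fil U φ j) (fil U φ (j + 1)) (hfs j) := by
          intro k hk
          obtain ⟨i, hi⟩ := hγ k hk
          have h4 : k = (k * (γ ^ i)⁻¹) * γ ^ i := by group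
          rw [h4]
          refine mul_mem ?_ (zpow_mem ?_ i)
          · intro u hu
            rw [htriv _ ⟨K.mul_mem hk (K.inv_mem (K.zpow_mem hγK i)), hi⟩, MulAut.one_apply,
              mul_inv_cancel]
            exact one_mem _
          · intro u hu
            exact mem_sup_right (mem_map_of_mem φ hu)
        exact (hFc.trans (sup_le h3 h1)) hl v hv
      have h3 : (fil U φ (j + 1)).relIndex (fil U φ j) = 1 := relIndex_eq_one.2 h2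
      rw [h3] at hn
      exact hp.out.one_lt.ne hn
  rcases chain hpow hUφ hN hdim (p ^ e₀) with h | h
  · have h1 : S.index ≤ C / (E + 1) := (Nat.le_div_iff_mul_le (Nat.succ_pos E)).2 hkey2
    rw [← U.card_mul_index, mul_comm]
    refine Nat.mul_le_mul ?_ hcardU
    rw [← h]
    exact h1
  · exfalso
    have h1 : p ^ (δ * p ^ e₀) * (E + 1) ≤ C := (Nat.mul_le_mul_right _ h).trans hkey2
    rw [he₀] at hCE
    exact absurd hCE (not_lt.2 h1)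

end Pool.Agent.W5h33.DF
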