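import Pool.Agent.W5h33.DF.Alg
import Pool.Agent.W5h77.MB.Two

/-!
# Norms, and the comparison of two layers
-/

set_option autoImplicit false

namespace Pool.Agent.W5h33.DF

open Subgroup Pool.Agent.Q60.MU Pool.Agent.W5h77.MB
open Pool.Agent.X310.Mu (nm nm_eq nm_of_fix nm_fix eq_one_of_cop)
open scoped commutatorElement

theorem mem_of_cop {G : Type} [Group G] (S : Subgroup G) {p n : ℕ} (hp : p.Prime) (hn : ¬ p ∣ n)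
    {u : G} (h1 : u ^ n ∈ S) (h2 : u ^ p ∈ S) : u ∈ S := by
  have hc : Nat.gcd n p = 1 := ((Nat.Prime.coprime_iff_not_dvd hp).2 hn).symm
  have h3 := Nat.gcd_eq_gcd_ab n p
  rw [hc] at h3
  have h4 : u = (u ^ n) ^ (Nat.gcdA n p) * (u ^ p) ^ (Nat.gcdB n p) := by
    rw [← zpow_natCast u n, ← zpow_natCast u p, ← zpow_mul, ← zpow_mul, ← zpow_add, ← h3,
      Nat.cast_one, zpow_one]
  rw [h4]
  exact mul_mem (zpow_mem h1 _) (zpow_mem h2 _)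

section nrm
variable {V : Type} [CommGroup V] [Finite V]

theorem nu_fix (D : Subgroup (MulAut V)) {δ : MulAut V} (hδ : δ ∈ D) (v : V) :
    δ (nu D v) = nu D v :=
  nm_fix (MonoidHom.id (MulAut V)) D v δ hδ

theorem nu_rel (D : Subgroup (MulAut V)) (B : Subgroup V) {v : V} (h : ∀ δ ∈ D, δ v * v⁻¹ ∈ B) :
    nu D v * (v ^ Nat.card D)⁻¹ ∈ B := by
  classical
  have : Fintype D := Fintype.ofFinite D
  have h1 : nu D v = ∏ σ : D, (σ : MulAut V) v := nm_eq _ _ _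
  have h2 : nu D v * (v ^ Nat.card D)⁻¹ = ∏ σ : D, ((σ : MulAut V) v * v⁻¹) := by
    rw [h1, Finset.prod_mul_distrib, Finset.prod_const, Finset.card_univ,
      ← Nat.card_eq_fintype_card, inv_pow]
  rw [h2]
  exact prod_mem fun σ _ => h σ σ.2

theorem nofix {p : ℕ} (hp : p.Prime) (D : Subgroup (MulAut V)) (hD : ¬ p ∣ Nat.card D)
    (S : Subgroup V) (hfix : ∀ v, (∀ δ ∈ D, δ v = v) → v ∈ S) {u : V} (hup : u ^ p = 1)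
    (hu : ∀ δ ∈ D, δ u * u⁻¹ ∈ S) : u ∈ S := by
  refine mem_of_cop S hp hD ?_ (by rw [hup]; exact S.one_mem)
  have h1 := nu_rel D S hu
  have h2 : nu D u ∈ S := hfix _ fun δ hδ => nu_fix D hδ u
  have h3 := S.mul_mem (S.inv_mem h1) h2
  have h4 : (nu D u * (u ^ Nat.card D)⁻¹)⁻¹ * nu D u = u ^ Nat.card D := by
    rw [mul_inv_rev, inv_inv, inv_mul_cancel_right]
  rwa [h4] at h3

theorem card_fix_le {p : ℕ} (hp : p.Prime) (hV : ∀ v : V, v ^ p = 1) (D : Subgroup (MulAut V))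
    (hD : ¬ p ∣ Nat.card D) (U : Subgroup V) (hU : ∀ v ∈ U, ∀ δ ∈ D, δ v = v) :
    Nat.card U ≤ (nu D).ker.index := by
  rw [index_ker]
  let f : U → (nu D).range := fun u => ⟨nu D u, u, rfl⟩
  refine Nat.card_le_card_of_injective f ?_
  intro u u' h
  have h5 : nu D (u : V) = nu D (u' : V) := congrArg Subtype.val h
  have h6 : nu D ((u : V) * (u' : V)⁻¹) = 1 := by
    rw [map_mul, map_inv, h5, mul_inv_cancel]
  have h7 : (u : V) * (u' : V)⁻¹ ∈ U := U.mul_mem u.2 (U.inv_mem u'.2)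
  have h8 := hU _ h7
  have h9 : nu D ((u : V) * (u' : V)⁻¹) = ((u : V) * (u' : V)⁻¹) ^ Nat.card D :=
    nm_of_fix _ _ _ h8
  rw [h9] at h6
  have h10 := eq_one_of_cop hp hD (hV _) h6
  exact Subtype.ext (mul_inv_eq_one.1 h10)

end nrm

variable {𝔾 : Type} [Group 𝔾]

theorem relIndex_le_of_mul {W L M : Subgroup 𝔾} (hW : W ≤ L) (hf : M.relIndex W ≠ 0)
    (h : ∀ f ∈ L, ∃ w ∈ W, ∃ m ∈ M, f = w * m) : M.relIndex L ≤ M.relIndex W := by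
  classical
  have hfi : (M.subgroupOf W).FiniteIndex := ⟨hf⟩
  have hfin : Finite (W ⧸ M.subgroupOf W) := inferInstance
  let f : W ⧸ M.subgroupOf W → L ⧸ M.subgroupOf L := fun q => QuotientGroup.mk ⟨q.out, hW q.out.2⟩
  refine Nat.card_le_card_of_surjective f ?_
  intro q
  obtain ⟨l, rfl⟩ := QuotientGroup.mk_surjective q
  obtain ⟨w, hw, m, hm, hl⟩ := h l l.2
  refine ⟨QuotientGroup.mk ⟨w, hw⟩, ?_⟩
  obtain ⟨u, hu⟩ := QuotientGroup.mk_out_eq_mul (M.subgroupOf W) (⟨w, hw⟩ : W)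
  show QuotientGroup.mk (⟨((QuotientGroup.mk (⟨w, hw⟩ : W) : W ⧸ M.subgroupOf W)).out, _⟩ : L) =
    QuotientGroup.mk l
  rw [QuotientGroup.eq]
  show ((⟨((QuotientGroup.mk (⟨w, hw⟩ : W) : W ⧸ M.subgroupOf W)).out, _⟩ : L)⁻¹ * l : L).1 ∈ M
  have h1 : (((⟨((QuotientGroup.mk (⟨w, hw⟩ : W) : W ⧸ M.subgroupOf W)).out,
      hW (((QuotientGroup.mk (⟨w, hw⟩ : W) : W ⧸ M.subgroupOf W)).out).2⟩ : L)⁻¹ * l : L) : 𝔾) =
      ((u : W) : 𝔾)⁻¹ * m := by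
    push_cast
    rw [hu, hl]
    push_cast
    group
  rw [h1]
  exact M.mul_mem (M.inv_mem u.2) hm

/-- Comparison of the module of the higher layer and the lower layer. -/
theorem key [TopologicalSpace 𝔾] [ContinuousMul 𝔾] {p : ℕ} [hp : Fact p.Prime] {Ω : Type}
    {I : Ω → Subgroup 𝔾} (𝒦 𝒦' D' Z' W' ℱ ℱ' M : Subgroup 𝔾) [h𝒦 : 𝒦.Normal] [hW'n : W'.Normal]
    (hD'n : D'.Normal) (hKK : 𝒦' ≤ 𝒦) (hZD : Z' ≤ D')
    (hKF : 𝒦 ≤ ℱ) (hFF : ℱ' ≤ ℱ) (hFD : ℱ' ≤ D') (hnF : ¬ p ∣ 𝒦.relIndex ℱ)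
    (hMo : IsOpen (M : Set 𝔾)) (hMf : M.relIndex ℱ ≠ 0) (hMg : gens p I ℱ ⊆ M)
    (hWK : W' ≤ 𝒦') (hWo : IsOpen (W' : Set 𝔾)) (hWf : W'.relIndex 𝒦 ≠ 0)
    (ha : ∀ x ∈ 𝒦', x ^ p ∈ W') (hb : ∀ a ∈ 𝒦, ∀ b ∈ 𝒦, ⁅a, b⁆ ∈ W')
    (hc : ∀ r ∈ D', ∀ a ∈ 𝒦, ⁅r, a⁆ ∈ 𝒦') (hd : ¬ p ∣ 𝒦'.relIndex D')
    (he : ∀ x ∈ 𝒦', (∀ z ∈ Z', ⁅z, x⁆ ∈ W') → x ∈ W')
    (he2 : ∀ x ∈ 𝒦', (∀ z ∈ ℱ', ⁅z, x⁆ ∈ W') → x ∈ W')
    (hf : ∀ x ∈ 𝒦, ∀ A, x ∈ I A → x ∈ W' ∨ ∃ g : 𝔾, ∀ z ∈ Z', ⁅z, g⁻¹ * x * g⁆ ∈ W')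
    {C : ℕ} (hC : RankLe p I 𝒦 C) : W'.relIndex 𝒦' * M.relIndex ℱ ≤ C := by
  classical
  have hWK2 : W' ≤ 𝒦 := hWK.trans hKK
  have hfin : Finite (VV 𝒦 W') := by
    apply Nat.finite_of_card_ne_zero
    rw [card_VV]
    exact hWf
  have hcomm : ∀ u v : VV 𝒦 W', u * v = v * u := by
    intro u v
    obtain ⟨x, rfl⟩ := th_surj 𝒦 W' u
    obtain ⟨y, rfl⟩ := th_surj 𝒦 W' v
    have h3 : th 𝒦 W' ⁅x, y⁆ = 1 := by
      rw [th_eq_one]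
      exact hb x x.2 y y.2
    rw [map_commutatorElement, commutatorElement_eq_one_iff_mul_comm] at h3
    exact h3
  let _ : CommGroup (VV 𝒦 W') := { (inferInstance : Group (VV 𝒦 W')) with mul_comm := hcomm }
  -- the action of a commutator
  have hact : ∀ (g : 𝔾) (x : 𝒦) (h : ⁅g, (x : 𝔾)⁆ ∈ 𝒦),
      act 𝒦 W' g (th 𝒦 W' x) * (th 𝒦 W' x)⁻¹ = th 𝒦 W' ⟨⁅g, (x : 𝔾)⁆, h⟩ := by
    intro g x h
    rw [act_th, ← map_inv, ← map_mul]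
    rfl
  have hmemK : ∀ (g : 𝔾) (x : 𝒦), ⁅g, (x : 𝔾)⁆ ∈ 𝒦 := by
    intro g x
    rw [commutatorElement_def]
    exact 𝒦.mul_mem (h𝒦.conj_mem x x.2 g) (𝒦.inv_mem x.2)
  have hacteq : ∀ (g : 𝔾) (x : 𝒦), act 𝒦 W' g (th 𝒦 W' x) = th 𝒦 W' x ↔ ⁅g, (x : 𝔾)⁆ ∈ W' := by
    intro g x
    rw [← mul_inv_eq_one, hact g x (hmemK g x), th_eq_one]
  let B : Subgroup (VV 𝒦 W') := (𝒦'.subgroupOf 𝒦).map (th 𝒦 W')
  have hA : ∀ v ∈ B, (∀ z ∈ Z', act 𝒦 W' z v = v) → v = 1 := by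
    rintro _ ⟨x, hx, rfl⟩ h
    rw [th_eq_one]
    exact he x hx fun z hz => (hacteq z x).1 (h z hz)
  let D₃ : Subgroup (MulAut (VV 𝒦 W')) := D'.map (act 𝒦 W')
  have hD₃ : ¬ p ∣ Nat.card D₃ := by
    intro hdvd
    apply hd
    refine hdvd.trans ?_
    have h3 : D₃ = ((act 𝒦 W').comp D'.subtype).range := by
      ext δ
      constructor
      · rintro ⟨l, hl, rfl⟩
        exact ⟨⟨l, hl⟩, rfl⟩
      · rintro ⟨l, rfl⟩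
        exact ⟨l, l.2, rfl⟩
    rw [h3, ← index_ker]
    show _ ∣ (𝒦'.subgroupOf D').index
    apply index_dvd_of_le
    intro x hx
    rw [MonoidHom.mem_ker]
    ext1 v
    obtain ⟨y, rfl⟩ := th_surj 𝒦 W' v
    rw [MulAut.one_apply]
    exact (hacteq x y).2 (hb x (hKK hx) y y.2)
  let DF : Subgroup (MulAut (VV 𝒦 W')) := ℱ'.map (act 𝒦 W')
  have hDF : ¬ p ∣ Nat.card DF := fun h => hD₃ (h.trans (Subgroup.card_dvd_of_le (map_mono hFD)))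
  let Fix : Subgroup (VV 𝒦 W') :=
    { carrier := {v | ∀ r ∈ D', act 𝒦 W' r v = v}
      mul_mem' := by
        intro a b ha hb r hr
        rw [map_mul, ha r hr, hb r hr]
      one_mem' := fun r _ => map_one _
      inv_mem' := by
        intro a ha r hr
        rw [map_inv, ha r hr] }
  have hFixstab : ∀ (g : 𝔾), ∀ v ∈ Fix, act 𝒦 W' g v ∈ Fix := by
    intro g v hv r hr
    have h1 : r * g = g * (g⁻¹ * r * g⁻¹⁻¹) := by group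
    rw [← MulAut.mul_apply, ← map_mul, h1, map_mul, MulAut.mul_apply,
      hv _ (hD'n.conj_mem r hr g⁻¹)]
  let FixF : Subgroup (VV 𝒦 W') :=
    { carrier := {v | ∀ r ∈ ℱ', act 𝒦 W' r v = v}
      mul_mem' := by
        intro a b ha hb r hr
        rw [map_mul, ha r hr, hb r hr]
      one_mem' := fun r _ => map_one _
      inv_mem' := by
        intro a ha r hr
        rw [map_inv, ha r hr] }
  have hFixF : ∀ v ∈ Fix, v ∈ FixF := fun v hv r hr => hv r (hFD hr)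
  -- the commutators with elements of `D'` have order dividing `p`
  have hup : ∀ r ∈ D', ∀ y : VV 𝒦 W', act 𝒦 W' r y * y⁻¹ ∈ B ∧ (act 𝒦 W' r y * y⁻¹) ^ p = 1 := by
    intro r hr y
    obtain ⟨x, rfl⟩ := th_surj 𝒦 W' y
    rw [hact r x (hmemK r x)]
    refine ⟨⟨_, hc r hr x x.2, rfl⟩, ?_⟩
    rw [← map_pow, th_eq_one]
    exact ha _ (hc r hr x x.2)
  have hZfix : ∀ y : VV 𝒦 W', (∀ z ∈ Z', act 𝒦 W' z y = y) → y ∈ Fix := by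
    intro y hy
    have h1 : nu D₃ y * (y ^ Nat.card D₃)⁻¹ ∈ B := by
      apply nu_rel
      rintro _ ⟨r, hr, rfl⟩
      exact (hup r hr y).1
    have h2 : nu D₃ y * (y ^ Nat.card D₃)⁻¹ = 1 := by
      apply hA _ h1
      intro z hz
      rw [map_mul, map_inv, map_pow, hy z hz, nu_fix D₃ ⟨z, hZD hz, rfl⟩]
    have h3 : nu D₃ y = y ^ Nat.card D₃ := mul_inv_eq_one.1 h2
    intro r hr
    rw [← mul_inv_eq_one]
    refine eq_one_of_cop hp.out hD₃ (hup r hr y).2 ?_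
    rw [mul_pow, inv_pow, ← map_pow, ← h3, nu_fix D₃ ⟨r, hr, rfl⟩, mul_inv_cancel]
  set W : Subgroup 𝔾 := pre 𝒦 W' FixF with hW
  have hWle : W ≤ 𝒦 := pre_le 𝒦 W' FixF
  have hWpre : W' ≤ W := le_pre 𝒦 W' hWK2 FixF
  have hgens : gens p I 𝒦 ⊆ W := by
    rintro x ((⟨a, ha', rfl⟩ | ⟨a, ha', b, hb', rfl⟩) | ⟨hx, A, hA'⟩)
    · show ((⟨a, ha'⟩ ^ p : 𝒦) : 𝔾) ∈ pre 𝒦 W' FixF
      rw [mem_pre, map_pow]
      intro r hr
      have h1 := (hup r (hFD hr) (th 𝒦 W' ⟨a, ha'⟩)).2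
      rw [mul_pow, inv_pow, mul_inv_eq_one, ← map_pow] at h1
      exact h1
    · exact hWpre (hb a ha' b hb')
    · rcases hf x hx A hA' with h | ⟨g, h⟩
      · exact hWpre h
      · have hx1 : g⁻¹ * x * g ∈ 𝒦 := by
          have h1 := h𝒦.conj_mem x hx g⁻¹
          rwa [inv_inv] at h1
        have h2 : th 𝒦 W' ⟨g⁻¹ * x * g, hx1⟩ ∈ Fix :=
          hZfix _ fun z hz => (hacteq z _).2 (h z hz)
        have h3 := hFixstab g _ h2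
        rw [act_th] at h3
        have h4 : (⟨g * (g⁻¹ * x * g) * g⁻¹, h𝒦.conj_mem _ hx1 g⟩ : 𝒦) = ⟨x, hx⟩ :=
          Subtype.ext (by group)
        show ((⟨x, hx⟩ : 𝒦) : 𝔾) ∈ pre 𝒦 W' FixF
        rw [mem_pre, ← h4]
        exact hFixF _ h3
  have hidx : W.relIndex 𝒦 ≠ 0 := by
    rw [hW, pre_relIndex]
    exact FixF.index_ne_zero_of_finite
  have hMK : M.relIndex 𝒦 ≠ 0 := fun h => hMf (relIndex_eq_zero_of_le_right hKF h)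
  have hMW : M.relIndex W ≠ 0 := fun h => hMK (relIndex_eq_zero_of_le_right hWle h)
  have hgensM : gens p I 𝒦 ⊆ M := by
    refine fun x hx => hMg ?_
    rcases hx with (⟨a, ha', h⟩ | ⟨a, ha', b, hb', h⟩) | ⟨hx, A, hA'⟩
    · exact Or.inl (Or.inl ⟨a, hKF ha', h⟩)
    · exact Or.inl (Or.inr ⟨a, hKF ha', b, hKF hb', h⟩)
    · exact Or.inr ⟨hKF hx, A, hA'⟩
  have h1 := hC (W ⊓ M) (inf_le_left.trans hWle) (by
    rw [coe_inf]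
    exact (Subgroup.isOpen_mono hWpre hWo).inter hMo) (relIndex_inf_ne_zero hidx hMK)
    (fun x hx => ⟨hgens hx, hgensM hx⟩)
  -- the products of elements of `W` and of `M`
  have hMn : ∀ w ∈ ℱ, ∀ m ∈ M, m ∈ ℱ → w * m * w⁻¹ ∈ M := by
    intro w hw m hm hm2
    have h2 : w * m * w⁻¹ = ⁅w, m⁆ * m := by
      rw [commutatorElement_def]
      group
    rw [h2]
    exact M.mul_mem (hMg (Or.inl (Or.inr ⟨w, hw, m, hm2, rfl⟩))) hm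
  let H : Subgroup 𝔾 :=
    { carrier := {f | ∃ w ∈ W, ∃ m ∈ M, m ∈ ℱ ∧ f = w * m}
      mul_mem' := by
        rintro _ _ ⟨w, hw, m, hm, hm2, rfl⟩ ⟨w', hw', m', hm', hm2', rfl⟩
        have hwF : w'⁻¹ ∈ ℱ := hKF (hWle (W.inv_mem hw'))
        have h3 := hMn _ hwF m hm hm2
        refine ⟨w * w', W.mul_mem hw hw', w'⁻¹ * m * w'⁻¹⁻¹ * m', M.mul_mem h3 hm',
          ℱ.mul_mem (ℱ.mul_mem (ℱ.mul_mem hwF hm2) (ℱ.inv_mem hwF)) hm2', ?_⟩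
        group
      one_mem' := ⟨1, W.one_mem, 1, M.one_mem, ℱ.one_mem, by simp⟩
      inv_mem' := by
        rintro _ ⟨w, hw, m, hm, hm2, rfl⟩
        have hwF : w ∈ ℱ := hKF (hWle hw)
        have h3 := hMn _ hwF m⁻¹ (M.inv_mem hm) (ℱ.inv_mem hm2)
        refine ⟨w⁻¹, W.inv_mem hw, w * m⁻¹ * w⁻¹, h3,
          ℱ.mul_mem (ℱ.mul_mem hwF (ℱ.inv_mem hm2)) (ℱ.inv_mem hwF), ?_⟩
        group }
  have hHW : ∀ w ∈ W, w ∈ H := fun w hw => ⟨w, hw, 1, M.one_mem, ℱ.one_mem, by simp⟩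
  have hHM : ∀ m ∈ M, m ∈ ℱ → m ∈ H := fun m hm hm2 => ⟨1, W.one_mem, m, hm, hm2, by simp⟩
  have hHp : ∀ f ∈ ℱ, f ^ p ∈ H := fun f hf' =>
    hHM _ (hMg (Or.inl (Or.inl ⟨f, hf', rfl⟩))) (ℱ.pow_mem hf' p)
  let BM : Subgroup (VV 𝒦 W') := (M.subgroupOf 𝒦).map (th 𝒦 W')
  have hHK : ∀ k ∈ 𝒦, k ∈ H := by
    intro k hk
    refine mem_of_cop H hp.out hDF ?_ (hHp k (hKF hk))
    have h3 : nu DF (th 𝒦 W' ⟨k, hk⟩) * ((th 𝒦 W' ⟨k, hk⟩) ^ Nat.card DF)⁻¹ ∈ BM := by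
      apply nu_rel
      rintro _ ⟨r, hr, rfl⟩
      rw [hact r ⟨k, hk⟩ (hmemK r ⟨k, hk⟩)]
      refine ⟨_, ?_, rfl⟩
      exact hMg (Or.inl (Or.inr ⟨r, hFF hr, k, hKF hk, rfl⟩))
    obtain ⟨⟨m, hm𝒦⟩, hm, hmeq⟩ := h3
    have hmM : m ∈ M := hm
    obtain ⟨⟨w, hw𝒦⟩, hweq⟩ := th_surj 𝒦 W' (nu DF (th 𝒦 W' ⟨k, hk⟩))
    have hwW : w ∈ W := by
      show ((⟨w, hw𝒦⟩ : 𝒦) : 𝔾) ∈ pre 𝒦 W' FixF
      rw [mem_pre, hweq]
      intro r hr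
      exact nu_fix DF ⟨r, hr, rfl⟩ _
    have h4 : th 𝒦 W' ((⟨m, hm𝒦⟩ : 𝒦) * ⟨k, hk⟩ ^ Nat.card DF * (⟨w, hw𝒦⟩ : 𝒦)⁻¹) = 1 := by
      rw [map_mul, map_mul, map_inv, map_pow, hmeq, hweq, inv_mul_cancel_right, mul_inv_cancel]
    rw [th_eq_one] at h4
    have h5 : m * k ^ Nat.card DF * w⁻¹ ∈ W' := h4
    have h6 : k ^ Nat.card DF = m⁻¹ * ((m * k ^ Nat.card DF * w⁻¹) * w) := by group
    rw [h6]
    exact H.mul_mem (H.inv_mem (hHM m hmM (hKF hm𝒦)))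
      (H.mul_mem (hHW _ (hWpre h5)) (hHW w hwW))
  have hHF : ∀ f ∈ ℱ, ∃ w ∈ W, ∃ m ∈ M, f = w * m := by
    intro f hf'
    have hn : (𝒦.subgroupOf ℱ).Normal := h𝒦.subgroupOf ℱ
    have h3 : f ^ 𝒦.relIndex ℱ ∈ 𝒦 := by
      have h4 := (𝒦.subgroupOf ℱ).pow_index_mem (⟨f, hf'⟩ : ℱ)
      exact h4
    have h5 : f ∈ H := mem_of_cop H hp.out hnF (hHK _ h3) (hHp f hf')
    obtain ⟨w, hw, m, hm, -, h⟩ := h5
    exact ⟨w, hw, m, hm, h⟩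
  have hMF : M.relIndex ℱ ≤ (W ⊓ M).relIndex W := by
    rw [inf_relIndex_left]
    exact relIndex_le_of_mul (hWle.trans hKF) hMW hHF
  have h2 : W ⊓ 𝒦' ≤ W' := by
    rintro x ⟨hx1, hx2⟩
    have h3 : th 𝒦 W' ⟨x, hKK hx2⟩ ∈ FixF := (mem_pre 𝒦 W' FixF ⟨x, hKK hx2⟩).1 hx1
    exact he2 x hx2 fun z hz => (hacteq z ⟨x, hKK hx2⟩).1 (h3 z hz)
  have h3 : W.relIndex 𝒦' ≠ 0 := fun h => hidx (by
    exact relIndex_eq_zero_of_le_right hKK h)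
  have h4 : W'.relIndex 𝒦' ≤ W.relIndex 𝒦 := by
    calc W'.relIndex 𝒦' ≤ (W ⊓ 𝒦').relIndex 𝒦' :=
          relIndex_le_of_le_left h2 (by rw [inf_relIndex_right]; exact h3)
      _ = W.relIndex 𝒦' := inf_relIndex_right _ _
      _ ≤ W.relIndex 𝒦 := relIndex_le_of_le_right hKK hidx
  refine le_trans ?_ h1
  rw [← relIndex_mul_relIndex (W ⊓ M) W 𝒦 inf_le_left hWle, mul_comm]
  exact Nat.mul_le_mul hMF h4

end Pool.Agent.W5h33.DF
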