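import Pool.Agent.W5h33.DF.FieldB

/-!
# The criterion in terms of the real subfield
-/

set_option autoImplicit false

namespace Pool.Agent.W5h33.DF

open IntermediateField Module Pool.Agent.Q60.MU Pool.Agent.W5h77.MB

/-- From the bound for the real subfield of a layer to the relative bound. -/
theorem real_small {p : ℕ} [hp : Fact p.Prime] (hp2 : p ≠ 2) {K : IntermediateField ℚ Qb}
    [FiniteDimensional ℚ K] [hKg : IsGalois ℚ K]
    (hpK : ∃ n, finrank ℚ K = n * finrank ℚ (abPart K) ∧ ¬ p ∣ n) (ι : Qb →+* ℂ)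
    (k : IntermediateField ℚ Qb) (hk : finrank ℚ k = 2) (hki : ¬ k ≤ realSub ι)
    (hab : ∀ σ ∈ k.fixingSubgroup, ∀ τ ∈ k.fixingSubgroup, ∀ x ∈ K, σ (τ x) = τ (σ x))
    {m : ℕ} {R : IntermediateField ℚ Qb} (hR : IsLayer p m R) {C₁ P : ℕ}
    (h1 : DegLe p ((K ⊓ realSub ι) ⊔ R) C₁) (hlt : C₁ ^ finrank ℚ K < P)
    (hfin : ∃ C₂, DegLe p (abPart K ⊔ R) C₂) :
    ∃ E, DegLe p (K ⊔ R) (C₁ ^ finrank ℚ K * (E + 1)) ∧ ¬ DegLe p (abPart K ⊔ R) E ∧
      C₁ ^ finrank ℚ K * (E + 1) < P * (E + 1) := by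
  classical
  have hfR := layer_fd hp.out hR
  have hRg := layer_galois hp.out hR
  have hfA : FiniteDimensional ℚ (abPart K) := fd_of_le (abPart_le K)
  have h2 : DegLe p (abPart K ⊔ R) (Nat.find hfin) := Nat.find_spec hfin
  have h3 : Nat.find hfin ≠ 0 := fun h => not_degLe_zero (p := p) (abPart K ⊔ R) (h ▸ h2)
  obtain ⟨E, hE⟩ := Nat.exists_eq_succ_of_ne_zero h3
  obtain ⟨n, hn, hpn⟩ := hpK
  refine ⟨E, ?_, Nat.find_min hfin (by rw [hE]; exact Nat.lt_succ_self E),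
    Nat.mul_lt_mul_of_pos_right hlt (Nat.succ_pos E)⟩
  rw [hE] at h2
  exact thmA hp2 ι k K R (layer_real hp.out hp2 hR ι) hk hki hab hn hpn h1 h2

end Pool.Agent.W5h33.DF
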