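import Pool.Agent.W5h33.DF.Lift
import Pool.Agent.W5h33.DF.Cyclo
import Pool.Agent.W5h33.DF.Field

/-!
# Inertia groups and totally ramified fields
-/

set_option autoImplicit false

namespace Pool.Agent.W5h33.DF

open IntermediateField Module Pool.Agent.Q60.MU Pool.Agent.W5h77.MB NumberField
open scoped Pointwise

theorem ne_top_of {p : ℕ} (hp : p.Prime) {A : ValuationSubring Qb} (hA : (p : Qb) ∈ A.nonunits)
    (M : IntermediateField ℚ Qb) : A.comap (algebraMap M Qb) ≠ ⊤ := by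
  intro htop
  have h2 : ((p : M))⁻¹ ∈ A.comap (algebraMap M Qb) := by rw [htop]; trivial
  rw [ValuationSubring.mem_comap, map_inv₀, map_natCast] at h2
  rw [ValuationSubring.mem_nonunits_iff_or] at hA
  rcases hA with h3 | h3
  · exact hp.ne_zero (by exact_mod_cast h3)
  · exact h3 h2

/-- Elements of a valuation ring are quotients of integral elements. -/
theorem exists_quot {p : ℕ} (hp : p.Prime) {A : ValuationSubring Qb} (hA : (p : Qb) ∈ A.nonunits)
    {x : Qb} (hx : x ∈ A) :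
    ∃ a s : Qb, IsIntegral ℤ a ∧ IsIntegral ℤ s ∧ A.valuation s = 1 ∧ x * s = a := by
  let M : IntermediateField ℚ Qb := adjoin ℚ {x}
  have hfd : FiniteDimensional ℚ M :=
    IntermediateField.adjoin.finiteDimensional (Algebra.IsIntegral.isIntegral x)
  have hnf : NumberField M := ⟨⟩
  have hxM : x ∈ M := mem_adjoin_simple_self ℚ x
  have hint : ∀ a : 𝓞 M, algebraMap (𝓞 M) M a ∈ A.comap (algebraMap M Qb) := by
    intro a
    rw [ValuationSubring.mem_comap]
    apply integral_mem A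
    exact (RingOfIntegers.isIntegral_coe a).map ((algebraMap M Qb).toIntAlgHom)
  have hz : (⟨x, hxM⟩ : M) ∈ A.comap (algebraMap M Qb) := hx
  obtain ⟨a, s, hs, has⟩ := (Pool.Agent.H639R3.mem_iff_of_cent _ hint (ne_top_of hp hA M) _).1 hz
  have hi : ∀ b : 𝓞 M, IsIntegral ℤ (algebraMap M Qb (algebraMap (𝓞 M) M b)) := fun b =>
    (RingOfIntegers.isIntegral_coe b).map ((algebraMap M Qb).toIntAlgHom)
  refine ⟨_, _, hi a, hi s, ?_, ?_⟩
  · rw [Pool.Agent.H639R3.mem_cent, Pool.Agent.H639R3.comap_val_lt_one] at hs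
    exact le_antisymm ((A.valuation_le_one_iff _).2 (integral_mem A (hi s))) (not_lt.1 hs)
  · rw [← has, map_mul]
    rfl

/-- An automorphism which acts trivially on the residues of the integral elements is in the inertia
group. -/
theorem mem_inertia_of {p : ℕ} (hp : p.Prime) {A : ValuationSubring Qb}
    (hA : (p : Qb) ∈ A.nonunits) {ι : Gal(Qb/ℚ)}
    (h : ∀ z, IsIntegral ℤ z → A.valuation (ι z - z) < 1) : ι ∈ inertia A := by
  have key : ∀ ι : Gal(Qb/ℚ), (∀ z, IsIntegral ℤ z → A.valuation (ι z - z) < 1) →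
      ∀ x ∈ A, A.valuation (ι x - x) < 1 := by
    intro ι h x hx
    obtain ⟨a, s, ha, hs, hs1, has⟩ := exists_quot hp hA hx
    have h1 := h a ha
    have h2 := h s hs
    have hιs : A.valuation (ι s) = 1 := by
      have h3 : A.valuation (s + (ι s - s)) = A.valuation s :=
        Valuation.map_add_eq_of_lt_left _ (lt_of_lt_of_eq h2 hs1.symm)
      rw [add_sub_cancel, hs1] at h3
      exact h3
    have h4 : (ι x - x) * (ι s * s) = (ι a - a) * s + -(a * (ι s - s)) := by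
      have h5 : ι x * ι s = ι a := by rw [← map_mul, has]
      linear_combination s * h5 - ι s * has
    have h5 : A.valuation ((ι x - x) * (ι s * s)) = A.valuation (ι x - x) := by
      rw [map_mul, map_mul, hιs, hs1, mul_one, mul_one]
    rw [← h5, h4]
    refine lt_of_le_of_lt (A.valuation.map_add _ _) (max_lt ?_ ?_)
    · rw [map_mul, hs1, mul_one]
      exact h1
    · rw [Valuation.map_neg, map_mul, mul_comm]
      exact mul_lt_one_of_lt_of_le h2 ((A.valuation_le_one_iff _).2 (integral_mem A ha))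
  have hmem : ∀ ι : Gal(Qb/ℚ), (∀ z, IsIntegral ℤ z → A.valuation (ι z - z) < 1) →
      ∀ x ∈ A, ι x ∈ A := by
    intro ι h x hx
    have h1 := key ι h x hx
    have h2 : ι x - x ∈ A := (A.valuation_le_one_iff _).1 h1.le
    have h3 := A.add_mem _ _ h2 hx
    rwa [sub_add_cancel] at h3
  have hinv : ∀ z, IsIntegral ℤ z → A.valuation (ι⁻¹ z - z) < 1 := by
    intro z hz
    have h1 := h (ι⁻¹ z) (hz.map ((ι⁻¹ : Gal(Qb/ℚ)).toRingEquiv.toRingHom.toIntAlgHom))
    have h2 : ι (ι⁻¹ z) = z := by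
      rw [← AlgEquiv.mul_apply, mul_inv_cancel, AlgEquiv.one_apply]
    rw [h2, ← Valuation.map_neg, neg_sub] at h1
    exact h1
  refine ⟨?_, fun x hx => ?_⟩
  · ext x
    rw [ValuationSubring.mem_pointwise_smul_iff_inv_smul_mem]
    constructor
    · intro hx
      have h1 := hmem ι h _ hx
      have h2 : ι (ι⁻¹ • x) = x := by
        show ι (ι⁻¹ x) = x
        rw [← AlgEquiv.mul_apply, mul_inv_cancel, AlgEquiv.one_apply]
      rwa [h2] at h1
    · intro hx
      exact hmem ι⁻¹ hinv x hx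
  · rw [ValuationSubring.mem_nonunits_iff]
    exact key ι h x hx

theorem nonunits_smul {p : ℕ} {A : ValuationSubring Qb}
    (hA : (p : Qb) ∈ A.nonunits) (σ : Gal(Qb/ℚ)) : (p : Qb) ∈ (σ • A).nonunits := by
  rw [ValuationSubring.mem_nonunits_iff_or] at hA ⊢
  rcases hA with h | h
  · exact Or.inl h
  · right
    rw [ValuationSubring.mem_pointwise_smul_iff_inv_smul_mem]
    show σ⁻¹ ((p : Qb)⁻¹) ∉ A
    rw [map_inv₀, map_natCast]
    exact h

theorem inertia_lift {p : ℕ} (hp : p.Prime) (M : IntermediateField ℚ Qb) [FiniteDimensional ℚ M]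
    {A : ValuationSubring Qb} (hA : (p : Qb) ∈ A.nonunits) {τ : Gal(Qb/ℚ)} (hτ : τ • A = A)
    (h : ∀ z ∈ M, IsIntegral ℤ z → τ z - z ∈ A.nonunits) :
    ∃ δ ∈ M.fixingSubgroup, δ⁻¹ * τ ∈ inertia A := by
  have hnf : NumberField M := ⟨⟩
  have hint : ∀ z : Qb, IsIntegral (𝓞 M) z ↔ IsIntegral ℤ z := fun z =>
    ⟨fun hz => isIntegral_trans z hz, fun hz => hz.tower_top⟩
  have hmap : ∀ (σ : Gal(Qb/ℚ)) (z : Qb), IsIntegral ℤ z → IsIntegral ℤ (σ z) := fun σ z hz =>
    hz.map (σ.toRingEquiv.toRingHom.toIntAlgHom)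
  have hτA : ∀ x, τ x ∈ A ↔ x ∈ A := by
    intro x
    constructor
    · intro hx
      rw [← hτ, ValuationSubring.mem_pointwise_smul_iff_inv_smul_mem] at hx
      have h2 : τ⁻¹ • τ x = x := by
        show τ⁻¹ (τ x) = x
        rw [← AlgEquiv.mul_apply, inv_mul_cancel, AlgEquiv.one_apply]
      rwa [h2] at hx
    · intro hx
      have h6 := ValuationSubring.smul_mem_pointwise_smul τ x A hx
      rwa [hτ] at h6
  obtain ⟨δ, hδ⟩ := exists_lift_gen (F := M) (L := Qb) (A := 𝓞 M) A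
    (fun a => integral_mem A ((RingOfIntegers.isIntegral_coe a).map
      ((algebraMap M Qb).toIntAlgHom))) τ.toRingEquiv hτA
    (fun z hz => (hint _).2 (hmap τ z ((hint z).1 hz)))
    (fun z hz => (hint _).2 (hmap τ⁻¹ z ((hint z).1 hz)))
    (fun a => (ValuationSubring.mem_nonunits_iff A).1
      (h _ (a : M).2 ((RingOfIntegers.isIntegral_coe a).map ((algebraMap M Qb).toIntAlgHom))))
  let δ' : Gal(Qb/ℚ) := δ.restrictScalars ℚ
  have hδ' : ∀ x, δ' x = δ x := fun _ => rfl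
  refine ⟨δ', ?_, ?_⟩
  · rw [IntermediateField.mem_fixingSubgroup_iff]
    intro x hx
    exact δ.commutes (⟨x, hx⟩ : M)
  · apply mem_inertia_of hp hA
    intro z hz
    have h1 := (hδ z ((hint z).2 hz)).2
    have h2 : ∀ y, δ' (δ'⁻¹ y) = y := fun y => by
      rw [← AlgEquiv.mul_apply, mul_inv_cancel, AlgEquiv.one_apply]
    have h3 : IsIntegral ℤ ((δ'⁻¹ * τ) z - z) := (hmap _ z hz).sub hz
    rw [(hδ _ ((hint _).2 h3)).1]
    have h4 : δ ((δ'⁻¹ * τ) z - z) = -(δ z - τ z) := by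
      rw [← hδ', ← hδ', map_sub, AlgEquiv.mul_apply, h2]
      ring
    rw [h4, Valuation.map_neg]
    exact h1

theorem cyclo_fd {p : ℕ} (hp : p.Prime) (N : ℕ) :
    FiniteDimensional ℚ (adjoin ℚ {z : Qb | z ^ p ^ N = 1}) := by
  have hfin : {z : Qb | z ^ p ^ N = 1}.Finite := by
    have h1 : (Polynomial.X ^ p ^ N - 1 : Polynomial Qb) ≠ 0 :=
      Polynomial.X_pow_sub_C_ne_zero (pow_pos hp.pos N) 1
    refine (Polynomial.rootSet_finite (Polynomial.X ^ p ^ N - 1 : Polynomial Qb) Qb).subset ?_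
    intro z hz
    rw [Polynomial.mem_rootSet]
    refine ⟨h1, ?_⟩
    have hz' : z ^ p ^ N = 1 := hz
    simp [hz']
  have : Finite {z : Qb | z ^ p ^ N = 1} := hfin
  exact IntermediateField.finiteDimensional_adjoin fun x _ => Algebra.IsIntegral.isIntegral x

/-- `p` is totally ramified in the layers. -/
theorem layer_tot {p m : ℕ} (hp : p.Prime) {R : IntermediateField ℚ Qb} (hR : IsLayer p m R)
    {A : ValuationSubring Qb} (hA : (p : Qb) ∈ A.nonunits) (σ : Gal(Qb/ℚ)) :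
    ∃ ι ∈ inertia A, σ * ι⁻¹ ∈ R.fixingSubgroup := by
  obtain ⟨-, N, hN⟩ := hR
  have hfd := cyclo_fd hp N
  obtain ⟨g, hg, hgA⟩ := conj_of_one hp (adjoin ℚ {z : Qb | z ^ p ^ N = 1}) (cyclo_onePrime hp N) hA
    (nonunits_smul hA σ)
  have hτ : (g * σ) • A = A := by
    rw [mul_smul]
    exact hgA.symm
  obtain ⟨δ, hδ, hι⟩ := inertia_lift hp (adjoin ℚ {z : Qb | z ^ p ^ N = 1}) hA hτ
    fun z hz hzi => cyclo_residue hp N hA (g * σ) hz hzi
  refine ⟨_, hι, ?_⟩
  have h1 : σ * (δ⁻¹ * (g * σ))⁻¹ = g⁻¹ * δ := by group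
  rw [h1]
  exact fixingSubgroup_le hN (mul_mem (inv_mem hg) hδ)

/-- The inertia groups over `K`. -/
theorem tot_pow {p m : ℕ} (hp : p.Prime) {K R : IntermediateField ℚ Qb} [FiniteDimensional ℚ K]
    [hKg : IsGalois ℚ K] (hR : IsLayer p m R) {A : ValuationSubring Qb}
    (hA : (p : Qb) ∈ A.nonunits) (τ : Gal(Qb/ℚ)) :
    ∃ ι ∈ inertia A ⊓ K.fixingSubgroup,
      τ ^ p ^ (finrank ℚ K).factorization p * ι⁻¹ ∈ R.fixingSubgroup := by
  have hKn : K.fixingSubgroup.Normal := (InfiniteGalois.normal_iff_isGalois K).2 hKg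
  have hRn := layer_normal hp hR
  have hKidx : finrank ℚ K = K.fixingSubgroup.index := finrank_eq_fixingSubgroup_index Qb K
  have hRidx : R.fixingSubgroup.index = p ^ m := by
    rw [← hR.1, finrank_eq_fixingSubgroup_index Qb R]
  obtain ⟨ι₀, hι₀, hι⟩ := layer_tot hp hR hA τ
  set n := finrank ℚ K with hn
  have hn0 : n ≠ 0 := (finrank_pos (R := ℚ) (M := K)).ne'
  have hcop : Nat.Coprime (n / p ^ n.factorization p) (p ^ m) :=
    Nat.Coprime.pow_right m (((Nat.Prime.coprime_iff_not_dvd hp).2 (Nat.not_dvd_ordCompl hp hn0)).symm)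
  obtain ⟨e, he1, he2⟩ := Nat.chineseRemainder hcop 0 1
  obtain ⟨u, rfl⟩ := (Nat.modEq_zero_iff_dvd).1 he1
  have hmul : p ^ n.factorization p * (n / p ^ n.factorization p) = n :=
    Nat.ordProj_mul_ordCompl_eq_self n p
  refine ⟨(ι₀ ^ n) ^ u, ⟨Subgroup.pow_mem _ (Subgroup.pow_mem _ hι₀ n) u, ?_⟩, ?_⟩
  · rw [hKidx]
    exact Subgroup.pow_mem _ (K.fixingSubgroup.pow_index_mem ι₀) u
  · have h1 : (τ : Gal(Qb/ℚ) ⧸ R.fixingSubgroup) = (ι₀ : Gal(Qb/ℚ) ⧸ R.fixingSubgroup) := by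
      rw [← mul_inv_eq_one, ← QuotientGroup.mk_inv, ← QuotientGroup.mk_mul,
        QuotientGroup.eq_one_iff]
      exact hι
    rw [← QuotientGroup.eq_one_iff, QuotientGroup.mk_mul, QuotientGroup.mk_inv,
      QuotientGroup.mk_pow, QuotientGroup.mk_pow, QuotientGroup.mk_pow, h1, mul_inv_eq_one,
      ← pow_mul, ← hmul, mul_assoc, pow_mul]
    have h3 : ((ι₀ : Gal(Qb/ℚ) ⧸ R.fixingSubgroup) ^ p ^ n.factorization p) ^ (p ^ m) = 1 := by
      rw [← QuotientGroup.mk_pow, ← QuotientGroup.mk_pow, QuotientGroup.eq_one_iff, ← hRidx]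
      exact R.fixingSubgroup.pow_index_mem _
    have h4 : ((ι₀ : Gal(Qb/ℚ) ⧸ R.fixingSubgroup) ^ p ^ n.factorization p) ^
        (n / p ^ n.factorization p * u) =
        ((ι₀ : Gal(Qb/ℚ) ⧸ R.fixingSubgroup) ^ p ^ n.factorization p) ^ 1 := by
      rw [pow_eq_pow_iff_modEq]
      exact he2.of_dvd (orderOf_dvd_of_pow_eq_one h3)
    rw [hmul, h4, pow_one]

end Pool.Agent.W5h33.DF
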